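import Mathlib

namespace Pool.Agent.MP_e34318_lc

variable {K : Type} (F : Filter K)

/-- `W` is a maximal family of `F`-positive subsets of `S` with pairwise `F`-null
intersections. -/
def IsPart (S : Set K) (W : Set (Set K)) : Prop :=
  Maximal (fun W : Set (Set K) =>
    (∀ X ∈ W, X ⊆ S ∧ Xᶜ ∉ F) ∧ W.Pairwise fun X Y => (X ∩ Y)ᶜ ∈ F) W

/-- The dual ideal of `F` is precipitous (Jech and Prikry). -/
def Precipitous : Prop :=
  ∀ S : Set K, Sᶜ ∉ F → ∀ W : ℕ → Set (Set K), (∀ n, IsPart F S (W n)) →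
    (∀ n, ∀ X ∈ W (n + 1), ∃ Y ∈ W n, X ⊆ Y) →
    ∃ X : ℕ → Set K, (∀ n, X n ∈ W n) ∧ (∀ n, X (n + 1) ⊆ X n) ∧ (⋂ n, X n).Nonempty

end Pool.Agent.MP_e34318_lc
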