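import Pool.Agent.MP_e34318_lc.Cc.PDefs

namespace Pool.Agent.MP_e34318_lc.Cc

open Cardinal Set

theorem exists_max_pairwise {α : Type*} (R : α → α → Prop) (hR : ∀ a b, R a b → R b a)
    (D : Set α) : ∃ A ⊆ D, A.Pairwise R ∧ ∀ d ∈ D, (∀ a ∈ A, R d a) → d ∈ A := by
  obtain ⟨A, hA⟩ := zorn_subset {A | A ⊆ D ∧ A.Pairwise R} (fun c hc hch =>
    ⟨⋃₀ c, ⟨sUnion_subset fun t ht => (hc ht).1,
      hch.pairwise_sUnion.2 fun t ht => (hc ht).2⟩, fun s hs => subset_sUnion_of_mem hs⟩)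
  refine ⟨A, hA.prop.1, hA.prop.2, fun d hd h => ?_⟩
  have : insert d A ∈ {A | A ⊆ D ∧ A.Pairwise R} :=
    ⟨insert_subset hd hA.prop.1,
      Set.pairwise_insert.2 ⟨hA.prop.2, fun b hb _ => ⟨h b hb, hR _ _ (h b hb)⟩⟩⟩
  exact hA.le_of_ge this (subset_insert _ _) (mem_insert _ _)

/-- The chain condition. -/
def CC (P : Type) [Preorder P] (κ : Cardinal.{0}) : Prop :=
  ∀ A : Set P, (A.Pairwise fun p q => ¬ ∃ r, r ≤ p ∧ r ≤ q) → #A < κ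

theorem CC.small {P : Type} [Preorder P] {κ : Cardinal.{0}} (cc : CC P κ) (D : Set P) :
    ∃ A ⊆ D, #A < κ ∧ ∀ d ∈ D, ∃ a ∈ A, ∃ r, r ≤ d ∧ r ≤ a := by
  obtain ⟨A, hD, hp, hm⟩ := exists_max_pairwise (fun p q : P => ¬ ∃ r, r ≤ p ∧ r ≤ q)
    (fun a b h ⟨r, h₁, h₂⟩ => h ⟨r, h₂, h₁⟩) D
  refine ⟨A, hD, cc A hp, fun d hd => ?_⟩
  by_contra h
  have h' : ∀ a ∈ A, ¬ ∃ r, r ≤ d ∧ r ≤ a := fun a ha e => h ⟨a, ha, e⟩
  exact h' d (hm d hd h') ⟨d, le_rfl, le_rfl⟩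

theorem fibre {α β : Type} {θ : Cardinal.{0}} (hθ : θ.IsRegular) {Y : Set α} (hY : θ ≤ #Y)
    {T : Set β} (hT : #T < θ) (Q : α → β → Prop) (h : ∀ y ∈ Y, ∃ t ∈ T, Q y t) :
    ∃ t ∈ T, θ ≤ #{y | y ∈ Y ∧ Q y t} := by
  by_contra hn
  push Not at hn
  have h1 := (card_biUnion_lt_iff_forall_of_isRegular
    (t := fun t _ => {y | y ∈ Y ∧ Q y t}) hθ hT).2 hn
  refine (hY.trans (mk_le_mk_of_subset fun y hy => ?_)).not_gt h1
  obtain ⟨t, ht, hq⟩ := h y hy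
  exact mem_biUnion ht ⟨hy, hq⟩

theorem le_mk_diff {α : Type} {θ : Cardinal.{0}} (hθ : ℵ₀ ≤ θ) {Y U : Set α} (hY : θ ≤ #Y)
    (hU : #U < θ) : θ ≤ #(Y \ U : Set α) := by
  by_contra hn
  have h1 : #Y ≤ #(Y \ U : Set α) + #U :=
    (mk_le_mk_of_subset (subset_sdiff_union Y U)).trans (mk_union_le _ _)
  exact (hY.trans h1).not_gt (add_lt_of_lt hθ (not_le.1 hn) hU)

theorem exists_mem_diff {α : Type} {θ : Cardinal.{0}} {Y U : Set α} (hY : θ ≤ #Y)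
    (hU : #U < θ) : ∃ y ∈ Y, y ∉ U := by
  by_contra hn
  push Not at hn
  exact (hY.trans (mk_le_mk_of_subset hn)).not_gt hU

section Closure

variable {L : Type} [LinearOrder L] {θ : Cardinal.{0}} {S : Set L}

theorem bound (hθ : θ.IsRegular) (hS : θ ≤ #S) (hI : ∀ y ∈ S, #(Iio y) < θ) {Z : Set L}
    (hZ : Z ⊆ S) (hc : #Z < θ) : ∃ y ∈ S, ∀ z ∈ Z, z < y := by
  have h1 := (card_biUnion_lt_iff_forall_of_isRegular (t := fun z _ => Iic z) hθ hc).2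
    fun z hz => by
      rw [← Iio_insert]
      exact mk_insert_le.trans_lt (add_lt_of_lt hθ.aleph0_le (hI z (hZ hz))
        (one_lt_aleph0.trans_le hθ.aleph0_le))
  obtain ⟨y, hy, h⟩ := exists_mem_diff hS h1
  exact ⟨y, hy, fun z hz => not_le.1 fun e => h (mem_biUnion hz e)⟩

theorem closure_pt [WellFoundedLT L] (hθ : θ.IsRegular) (h0 : ℵ₀ < θ) (hS : θ ≤ #S)
    (hI : ∀ y ∈ S, #(Iio y) < θ) (F : List L → Set L) (hF : ∀ t, #(F t) < θ) :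
    ∃ y ∈ S, ∀ t : List L, (∀ z ∈ t, z ∈ S ∧ z < y) → y ∉ F t := by
  have step : ∀ d ∈ S, ∃ d' ∈ S, d < d' ∧
      ∀ t : List L, (∀ z ∈ t, z < d) → ∀ y ∈ S, y ∈ F t → y < d' := by
    intro d hd
    have h1 : #(List (Iio d)) < θ := (mk_list_le_max _).trans_lt (max_lt h0 (hI d hd))
    have h2 := (card_iUnion_lt_iff_forall_of_isRegular
      (t := fun t : List (Iio d) => F (t.map Subtype.val)) hθ h1).2 fun t => hF _
    obtain ⟨d', hd', h⟩ := bound hθ hS hI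
      (Z := insert d (S ∩ ⋃ t : List (Iio d), F (t.map Subtype.val)))
      (insert_subset hd inter_subset_left)
      (mk_insert_le.trans_lt (add_lt_of_lt h0.le
        ((mk_le_mk_of_subset inter_subset_right).trans_lt h2) (one_lt_aleph0.trans h0)))
    refine ⟨d', hd', h d (mem_insert _ _), fun t ht y hy hyF => h y (Or.inr ⟨hy, ?_⟩)⟩
    lift t to List (Iio d) using ht
    exact mem_iUnion.2 ⟨t, hyF⟩
  choose! nx hn1 hn2 hn3 using step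
  obtain ⟨d0, hd0, -⟩ := bound hθ hS hI (empty_subset _) (by simpa using hθ.pos)
  let δ : ℕ → L := fun n => Nat.rec d0 (fun _ d => nx d) n
  have hδ : ∀ n, δ n ∈ S := fun n => by
    induction n with
    | zero => exact hd0
    | succ n ih => exact hn1 _ ih
  have hm : StrictMono δ := strictMono_nat_of_lt_succ fun n => hn2 _ (hδ n)
  obtain ⟨y0, hy0, hy0'⟩ := bound hθ hS hI (Z := range δ) (by rintro _ ⟨n, rfl⟩; exact hδ n)
    ((countable_range δ).le_aleph0.trans_lt h0)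
  obtain ⟨y, ⟨hy, hy'⟩, hmin⟩ := wellFounded_lt.has_min {y | y ∈ S ∧ ∀ n, δ n < y}
    ⟨y0, hy0, fun n => hy0' _ ⟨n, rfl⟩⟩
  refine ⟨y, hy, fun t ht hyF => ?_⟩
  obtain ⟨N, hN⟩ : ∃ N, ∀ z ∈ t, z < δ N := by
    clear hyF
    induction t with
    | nil => exact ⟨0, by simp⟩
    | cons z t ih =>
      obtain ⟨N, hN⟩ := ih fun w hw => ht w (List.mem_cons_of_mem _ hw)
      obtain ⟨hz, hzy⟩ := ht z List.mem_cons_self
      obtain ⟨n, hn⟩ : ∃ n, z ≤ δ n := by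
        by_contra h
        push Not at h
        exact hmin z ⟨hz, h⟩ hzy
      refine ⟨max N (n + 1), fun w hw => ?_⟩
      rcases List.mem_cons.1 hw with rfl | hw
      · exact hn.trans_lt (hm (lt_of_lt_of_le (Nat.lt_succ_self n) (le_max_right _ _)))
      · exact (hN w hw).trans_le (hm.monotone (le_max_left _ _))
  exact (hn3 _ (hδ N) t hN y hy hyF).not_gt (hy' (N + 1))

end Closure

section Rank

variable {P L : Type} [Preorder P] [LinearOrder L] (E : P → L → L → Prop)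

/-- `r` forces that the points of `s` are neighbours of `y` below `y`. -/
def Nb (r : P) (s : List L) (y : L) : Prop := ∀ z ∈ s, z < y ∧ E r z y

/-- `r` forces that `x` end-extends the clique `s` inside the neighbourhood of `y`. -/
def Ext (y : L) (r : P) (s : List L) (x : L) : Prop := Nb E r s x ∧ x < y ∧ E r x y

/-- A large set without possible edges. -/
def PropA (p₀ : P) (l : Cardinal.{0}) : Prop :=
  ∃ Z : Set (L × P), l ≤ #(Prod.fst '' Z) ∧ (∀ z ∈ Z, z.2 ≤ p₀) ∧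
    ∀ z ∈ Z, ∀ w ∈ Z, z.1 < w.1 → ∀ r, r ≤ z.2 → r ≤ w.2 → ¬ E r z.1 w.1

/-- A strategy to build an infinite clique below a common neighbour. -/
def PropB (p₀ : P) : Prop :=
  ∃ y : L, ∃ p ≤ p₀, ∃ Gd : P → List L → Prop, (∀ r r' s, r' ≤ r → Gd r s → Gd r' s) ∧
    Gd p [] ∧ ∀ r s, Gd r s → ∃ r' ≤ r, ∃ x, Ext E y r' s x ∧ Gd r' (x :: s)

variable {E}

theorem Nb.mono (hE : ∀ r r' x y, r' ≤ r → E r x y → E r' x y) {r r' : P} {s : List L} {y : L}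
    (h : Nb E r s y) (hr : r' ≤ r) : Nb E r' s y :=
  fun z hz => ⟨(h z hz).1, hE _ _ _ _ hr (h z hz).2⟩

theorem Ext.mono (hE : ∀ r r' x y, r' ≤ r → E r x y → E r' x y) {r r' : P} {s : List L} {x y : L}
    (h : Ext E y r s x) (hr : r' ≤ r) : Ext E y r' s x :=
  ⟨h.1.mono hE hr, h.2.1, hE _ _ _ _ hr h.2.2⟩

omit [Preorder P] in
theorem Nb.cons {r : P} {s : List L} {x y : L} (h : Nb E r s y) (hx : x < y) (e : E r x y) :
    Nb E r (x :: s) y := by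
  intro z hz
  rcases List.mem_cons.1 hz with rfl | hz
  exacts [⟨hx, e⟩, h z hz]

variable [WellFoundedLT L]

theorem level (hE : ∀ r r' x y, r' ≤ r → E r x y → E r' x y) {p₀ : P} (hB : ¬ PropB E p₀)
    {θ : Cardinal.{0}} {S : Set L} (hθ : θ.IsRegular) (h0 : ℵ₀ < θ) (hS : θ ≤ #S)
    (hI : ∀ y ∈ S, #(Iio y) < θ) (q₀ : L → P) (hq₀ : ∀ y ∈ S, q₀ y ≤ p₀) :
    ∃ Y ⊆ S, θ ≤ #Y ∧ ∃ q : L → P, (∀ y ∈ Y, q y ≤ q₀ y) ∧
      ∀ x ∈ Y, ∀ y ∈ Y, x < y → ∀ r, r ≤ q x → r ≤ q y → ¬ E r x y := by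
  have key : ∀ y ∈ S, ∃ r, ∃ t : List L, (r ≤ q₀ y ∧ (∀ z ∈ t, z ∈ S) ∧ Nb E r t y) ∧
      ∀ r' ≤ r, ∀ x ∈ S, ¬ Ext E y r' t x := by
    intro y hy
    by_contra h
    push Not at h
    refine hB ⟨y, q₀ y, hq₀ y hy, fun r t => r ≤ q₀ y ∧ (∀ z ∈ t, z ∈ S) ∧ Nb E r t y,
      fun r r' s hr h => ⟨hr.trans h.1, h.2.1, h.2.2.mono hE hr⟩,
      ⟨le_rfl, by simp, by simp [Nb]⟩, fun r s hs => ?_⟩
    obtain ⟨r', hr', x, hx, e⟩ := h r s hs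
    refine ⟨r', hr', x, e, hr'.trans hs.1, fun z hz => ?_,
      (hs.2.2.mono hE hr').cons e.2.1 e.2.2⟩
    rcases List.mem_cons.1 hz with rfl | hz
    exacts [hx, hs.2.1 z hz]
  have : Nonempty P := ⟨p₀⟩
  choose! q t h1 h2 using key
  obtain ⟨t₀, ht₀⟩ : ∃ t₀, θ ≤ #{y | y ∈ S ∧ t y = t₀} := by
    by_contra h
    push Not at h
    obtain ⟨y, hy, H⟩ := closure_pt hθ h0 hS hI _ h
    exact H (t y) (fun z hz => ⟨(h1 y hy).2.1 z hz, ((h1 y hy).2.2 z hz).1⟩) ⟨hy, rfl⟩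
  refine ⟨_, fun y hy => hy.1, ht₀, q, fun y hy => (h1 y hy.1).1,
    fun x hx y hy hxy r hr hr' e => h2 y hy.1 r hr' x hx.1 ⟨?_, hxy, e⟩⟩
  rw [hy.2, ← hx.2]
  exact (h1 x hx.1).2.2.mono hE hr

variable (E) in
/-- `r` forces that the rank of `s` in the tree of cliques from `B` below `y` is at most `α`. -/
def Rk (B : Set L) (y : L) : L → P → List L → Prop :=
  (wellFounded_lt (α := L)).fix (fun α ih r s => ∀ x ∈ B, ∀ r' ≤ r, Ext E y r' s x →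
    ∃ r'' ≤ r', ∃ β, ∃ h : β < α, ih β h r'' (x :: s))

theorem rk_iff {B : Set L} {y α : L} {r : P} {s : List L} : Rk E B y α r s ↔
    ∀ x ∈ B, ∀ r' ≤ r, Ext E y r' s x → ∃ r'' ≤ r', ∃ β < α, Rk E B y β r'' (x :: s) := by
  unfold Rk
  rw [WellFounded.fix_eq]
  simp only [exists_prop]

theorem Rk.mono {B : Set L} {y α : L} {r r' : P} {s : List L} (h : Rk E B y α r s)
    (hr : r' ≤ r) : Rk E B y α r' s :=
  rk_iff.2 fun x hx r₁ h₁ => rk_iff.1 h x hx r₁ (h₁.trans hr)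

theorem exists_rk {κ θ : Cardinal.{0}} (cc : CC P κ) {p₀ : P} (hB : ¬ PropB E p₀)
    (hθ : θ.IsRegular) (hκ : κ ≤ θ) {B W : Set L} (hc : #B < θ) (hW : θ ≤ #W)
    (hI : ∀ α ∈ W, #(Iio α) < θ) (y : L) : ∃ α ∈ W, ∃ r ≤ p₀, Rk E B y α r [] := by
  by_contra h
  push Not at h
  refine hB ⟨y, p₀, le_rfl, fun r s => ∀ α ∈ W, ∀ r' ≤ r, ¬ Rk E B y α r' s,
    fun r r' s hr h α hα r₁ h₁ => h α hα r₁ (h₁.trans hr), h, fun r s hs => ?_⟩
  by_contra hn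
  push Not at hn
  choose A hA1 hA2 hA3 using fun x : L => cc.small {r | ∃ α ∈ W, Rk E B y α r (x :: s)}
  obtain ⟨a0, -, -⟩ := bound hθ hW hI (empty_subset _) (by simpa using hθ.pos)
  have : Nonempty L := ⟨a0⟩
  choose! al hal1 hal2 using fun x a (ha : a ∈ A x) => hA1 x ha
  have h1 := (card_biUnion_lt_iff_forall_of_isRegular (t := fun x _ => al x '' A x) hθ hc).2
    fun x _ => mk_image_le.trans_lt ((hA2 x).trans_le hκ)
  obtain ⟨α, hα, hb⟩ := bound hθ hW hI (iUnion₂_subset fun x _ => by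
    rintro _ ⟨a, ha, rfl⟩; exact hal1 x a ha) h1
  refine hs α hα r le_rfl (rk_iff.2 fun x hx r' hr' e => ?_)
  obtain ⟨β, hβ, r₁, h₁, h₂⟩ := hn r' hr' x e
  obtain ⟨a, ha, r₂, h₃, h₄⟩ := hA3 x r₁ ⟨β, hβ, h₂⟩
  exact ⟨r₂, h₃.trans h₁, al x a, hb _ (mem_biUnion hx ⟨a, ha, rfl⟩), (hal2 x a ha).mono h₄⟩

end Rank

section Tree

variable {P L K : Type} [Preorder P] [LinearOrder L] [WellFoundedLT L] [LinearOrder K]

/-- A system of levels. -/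
structure Levels (L K : Type) [LinearOrder L] [LinearOrder K] where
  lam : K → Cardinal.{0}
  Lev : K → Set L
  Low : K → Set L
  reg : ∀ j, (lam j).IsRegular
  unc : ∀ j, ℵ₀ < lam j
  k_lt : ∀ j, #K < lam j
  low_lt : ∀ j, #(Low j) < lam j
  sub : ∀ i j, i < j → Lev i ⊆ Low j
  ini : ∀ j, ∀ y ∈ Lev j, #(Iio y) < lam j
  ord : ∀ i j, i < j → ∀ x ∈ Lev i, ∀ y ∈ Lev j, x < y

/-- States. -/
structure St (P L K : Type) where
  s : List L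
  B : Set K
  f : K → L
  Y : K → Set L
  q : K → L → P

variable (V : Levels L K) (E : P → L → L → Prop) (p₀ : P)

def St.Ok (σ : St P L K) : Prop :=
  ∀ j ∈ σ.B, σ.Y j ⊆ V.Lev j ∧ V.lam j ≤ #(σ.Y j) ∧ #(Iio (σ.f j)) < V.lam j ∧
    ∀ y ∈ σ.Y j, σ.q j y ≤ p₀ ∧ Nb E (σ.q j y) σ.s y ∧
      Rk E (V.Low j) y (σ.f j) (σ.q j y) σ.s

/-- Possible neighbours of `x` in level `j`. -/
def St.Pe (σ : St P L K) (i : K) (x : L) (j : K) : Set L :=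
  {y | y ∈ σ.Y j ∧ ∃ r, r ≤ σ.q i x ∧ r ≤ σ.q j y ∧ E r x y}

def St.nn (σ : St P L K) (i : K) (x : L) : Set K :=
  {j | j ∈ σ.B ∧ i < j ∧ V.lam j ≤ #(σ.Pe E i x j)}

variable {V E p₀}

theorem child (hE : ∀ r r' x y, r' ≤ r → E r x y → E r' x y) {σ : St P L K} (h : σ.Ok V E p₀)
    {i : K} (hi : i ∈ σ.B) {x : L} (hx : x ∈ σ.Y i) :
    ∃ τ : St P L K, τ.Ok V E p₀ ∧ τ.B = σ.nn V E i x ∧ ∀ j ∈ τ.B, τ.f j < σ.f j := by
  have key : ∀ j ∈ σ.nn V E i x, ∃ β ∈ Iio (σ.f j), V.lam j ≤ #{y | y ∈ σ.Pe E i x j ∧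
      ∃ r ≤ σ.q j y, Ext E y r σ.s x ∧ Rk E (V.Low j) y β r (x :: σ.s)} := by
    rintro j ⟨hj, hij, hc⟩
    refine fibre (V.reg j) hc (h j hj).2.2.1 _ ?_
    rintro y ⟨hy, r, h₁, h₂, e⟩
    have hxL := (h i hi).1 hx
    have he : Ext E y r σ.s x :=
      ⟨((h i hi).2.2.2 x hx).2.1.mono hE h₁, V.ord i j hij x hxL y ((h j hj).1 hy), e⟩
    obtain ⟨r', hr', β, hβ, hR⟩ :=
      rk_iff.1 ((h j hj).2.2.2 y hy).2.2 x (V.sub i j hij hxL) r h₂ he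
    exact ⟨β, hβ, r', hr'.trans h₂, he.mono hE hr', hR⟩
  have : Nonempty L := ⟨x⟩
  have : Nonempty P := ⟨p₀⟩
  choose! f hf1 hf2 using key
  have key2 : ∀ j y, (∃ r ≤ σ.q j y, Ext E y r σ.s x ∧ Rk E (V.Low j) y (f j) r (x :: σ.s)) →
      ∃ r ≤ σ.q j y, Ext E y r σ.s x ∧ Rk E (V.Low j) y (f j) r (x :: σ.s) := fun _ _ h => h
  choose! q hq1 hq2 hq3 using key2
  refine ⟨⟨x :: σ.s, σ.nn V E i x, f, fun j => {y | y ∈ σ.Pe E i x j ∧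
      ∃ r ≤ σ.q j y, Ext E y r σ.s x ∧ Rk E (V.Low j) y (f j) r (x :: σ.s)}, q⟩,
    fun j hj => ⟨fun y hy => (h j hj.1).1 hy.1.1, hf2 j hj,
      (mk_le_mk_of_subset (Iio_subset_Iio (le_of_lt (hf1 j hj)))).trans_lt (h j hj.1).2.2.1,
      fun y hy => ?_⟩, rfl, hf1⟩
  have h₁ := (h j hj.1).2.2.2 y hy.1.1
  exact ⟨(hq1 j y hy.2).trans h₁.1,
    (h₁.2.1.mono hE (hq1 j y hy.2)).cons (hq2 j y hy.2).2.1 (hq2 j y hy.2).2.2, hq3 j y hy.2⟩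

theorem mkA (hE : ∀ r r' x y, r' ≤ r → E r x y → E r' x y) {l κ : Cardinal.{0}}
    (hcof : ∀ A : Set K, κ ≤ #A → ∀ c < l, ∃ j ∈ A, c < V.lam j) (hB : ¬ PropB E p₀)
    {σ : St P L K} (h : σ.Ok V E p₀) {A : Set K} (hAB : A ⊆ σ.B) (hA : κ ≤ #A) (Y' : K → Set L)
    (h1 : ∀ i ∈ A, Y' i ⊆ σ.Y i) (h2 : ∀ i ∈ A, V.lam i ≤ #(Y' i))
    (h3 : ∀ i ∈ A, ∀ j ∈ A, i < j → ∀ x ∈ Y' i, j ∉ σ.nn V E i x) : PropA E p₀ l := by
  let Del : K → Set L := fun j => ⋃ i ∈ {i | i ∈ A ∧ i < j}, ⋃ x ∈ Y' i, σ.Pe E i x j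
  have hDel : ∀ j ∈ A, #(Del j) < V.lam j := by
    intro j hj
    refine (card_biUnion_lt_iff_forall_of_isRegular
      (t := fun i _ => ⋃ x ∈ Y' i, σ.Pe E i x j) (V.reg j)
      ((mk_set_le _).trans_lt (V.k_lt j))).2 fun i hi => ?_
    refine (card_biUnion_lt_iff_forall_of_isRegular (t := fun x _ => σ.Pe E i x j) (V.reg j)
      ((mk_le_mk_of_subset fun x hx => V.sub i j hi.2 ((h i (hAB hi.1)).1 (h1 i hi.1 hx))).trans_lt
        (V.low_lt j))).2 fun x hx => ?_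
    by_contra hc
    exact h3 i hi.1 j hj hi.2 x hx ⟨hAB hj, hi.2, not_lt.1 hc⟩
  have key3 : ∀ j ∈ A, ∃ Y ⊆ Y' j \ Del j, V.lam j ≤ #Y ∧ ∃ q : L → P,
      (∀ y ∈ Y, q y ≤ σ.q j y) ∧
      ∀ x ∈ Y, ∀ y ∈ Y, x < y → ∀ r, r ≤ q x → r ≤ q y → ¬ E r x y := fun j hj =>
    level hE hB (V.reg j) (V.unc j) (le_mk_diff (V.unc j).le (h2 j hj) (hDel j hj))
      (fun y hy => V.ini j y ((h j (hAB hj)).1 (h1 j hj hy.1))) (σ.q j)
      (fun y hy => ((h j (hAB hj)).2.2.2 y (h1 j hj hy.1)).1)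
  have : Nonempty P := ⟨p₀⟩
  choose! Y hY1 hY2 q hq1 hq2 using key3
  have hY : ∀ j ∈ A, ∀ y ∈ Y j, y ∈ σ.Y j := fun j hj y hy => h1 j hj (hY1 j hj hy).1
  refine ⟨{z | ∃ j ∈ A, ∃ y ∈ Y j, (y, q j y) = z}, ?_, ?_, ?_⟩
  · by_contra hc
    obtain ⟨j, hj, hlt⟩ := hcof A hA _ (not_le.1 hc)
    refine ((hY2 j hj).trans (mk_le_mk_of_subset fun y hy => ?_)).not_gt hlt
    exact ⟨(y, q j y), ⟨j, hj, y, hy, rfl⟩, rfl⟩
  · rintro _ ⟨j, hj, y, hy, rfl⟩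
    exact (hq1 j hj y hy).trans ((h j (hAB hj)).2.2.2 y (hY j hj y hy)).1
  · rintro _ ⟨i, hi, x, hx, rfl⟩ _ ⟨j, hj, y, hy, rfl⟩ hxy r h₁ h₂ e
    rcases lt_trichotomy i j with hij | rfl | hij
    · refine (hY1 j hj hy).2 (mem_biUnion (show i ∈ {i | i ∈ A ∧ i < j} from ⟨hi, hij⟩)
        (mem_biUnion (hY1 i hi hx).1 ?_))
      exact ⟨hY j hj y hy, r, h₁.trans (hq1 i hi x hx), h₂.trans (hq1 j hj y hy), e⟩
    · exact hq2 i hi x hx y hy hxy r h₁ h₂ e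
    · exact (V.ord j i hij y ((h j (hAB hj)).1 (hY j hj y hy)) x
        ((h i (hAB hi)).1 (hY i hi x hx))).not_gt hxy

theorem step (hE : ∀ r r' x y, r' ≤ r → E r x y → E r' x y) {l κ : Cardinal.{0}}
    (hpow : ∀ j, #(Set K) < V.lam j)
    (hcof : ∀ A : Set K, κ ≤ #A → ∀ c < l, ∃ j ∈ A, c < V.lam j)
    (hA : ¬ PropA E p₀ l) (hB : ¬ PropB E p₀) {σ : St P L K} (h : σ.Ok V E p₀) :
    ∃ ch : K → St P L K, (∀ i, (ch i).Ok V E p₀ ∧ ∀ j ∈ (ch i).B, j ∈ σ.B ∧ (ch i).f j < σ.f j) ∧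
      #{j | j ∈ σ.B ∧ ∀ i < j, j ∉ (ch i).B} < κ := by
  classical
  have key : ∀ i, ∃ τ : St P L K, (τ.Ok V E p₀ ∧ ∀ j ∈ τ.B, j ∈ σ.B ∧ τ.f j < σ.f j) ∧
      (i ∈ σ.B → V.lam i ≤ #{x | x ∈ σ.Y i ∧ σ.nn V E i x = τ.B}) := by
    intro i
    by_cases hi : i ∈ σ.B
    · obtain ⟨N, -, hN⟩ := fibre (V.reg i) (h i hi).2.1 (T := (univ : Set (Set K)))
        (by rw [mk_univ]; exact hpow i) (fun x N => σ.nn V E i x = N)
        (fun x _ => ⟨_, trivial, rfl⟩)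
      obtain ⟨x, hx, -⟩ := exists_mem_diff hN (U := ∅) (by simpa using (V.reg i).pos)
      obtain ⟨τ, h₁, h₂, h₃⟩ := child hE h hi hx.1
      refine ⟨τ, ⟨h₁, fun j hj => ⟨(h₂ ▸ hj : j ∈ σ.nn V E i x).1, h₃ j hj⟩⟩, fun _ => ?_⟩
      rw [h₂, hx.2]
      exact hN
    · exact ⟨⟨σ.s, ∅, σ.f, σ.Y, σ.q⟩, ⟨fun j hj => hj.elim, fun j hj => hj.elim⟩,
        fun h => absurd h hi⟩
  choose ch h1 h2 using key
  refine ⟨ch, h1, ?_⟩
  by_contra hn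
  exact hA (mkA hE hcof hB h (fun j hj => hj.1) (not_lt.1 hn)
    (fun i => {x | x ∈ σ.Y i ∧ σ.nn V E i x = (ch i).B}) (fun i _ x hx => hx.1)
    (fun i hi => h2 i hi.1) fun i _ j hj hij x hx e => hj.2 i hij (hx.2 ▸ e))

theorem step_filter' (hE : ∀ r r' x y, r' ≤ r → E r x y → E r' x y) {l κ : Cardinal.{0}}
    (hcof : ∀ A : Set K, κ ≤ #A → ∀ c < l, ∃ j ∈ A, c < V.lam j)
    (hA : ¬ PropA E p₀ l) (hB : ¬ PropB E p₀) {F : Filter K} [CardinalInterFilter F κ]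
    (hI : ∀ i, Ioi i ∈ F) {G : Set (Set K)} (hb : F.HasBasis (· ∈ G) id) {σ : St P L K}
    (hG : ∀ j ∈ σ.B, #G < V.lam j) (h : σ.Ok V E p₀) (hp : σ.Bᶜ ∉ F) :
    ∃ τ : St P L K, τ.Ok V E p₀ ∧ τ.Bᶜ ∉ F ∧ ∀ j ∈ τ.B, j ∈ σ.B ∧ τ.f j < σ.f j := by
  by_contra hn
  have key : ∀ i ∈ σ.B, ∃ e ∈ G, V.lam i ≤ #{x | x ∈ σ.Y i ∧ e ⊆ (σ.nn V E i x)ᶜ} := by
    intro i hi
    refine fibre (V.reg i) (h i hi).2.1 (hG i hi) _ fun x hx => ?_
    obtain ⟨τ, h₁, h₂, h₃⟩ := child hE h hi hx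
    refine hb.mem_iff.1 ?_
    by_contra hc
    exact hn ⟨τ, h₁, h₂ ▸ hc, fun j hj => ⟨(h₂ ▸ hj : j ∈ σ.nn V E i x).1, h₃ j hj⟩⟩
  choose! e he1 he2 using key
  obtain ⟨A, a1, a2, a3⟩ := exists_max_pairwise
    (fun i j : K => (i < j → j ∈ e i) ∧ (j < i → i ∈ e j)) (fun _ _ h => h.symm) σ.B
  refine hA (mkA hE hcof hB h a1 ?_ (fun i => {x | x ∈ σ.Y i ∧ e i ⊆ (σ.nn V E i x)ᶜ})
    (fun i _ x hx => hx.1) (fun i hi => he2 i (a1 hi))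
    fun i hi j hj hij x hx => hx.2 ((a2 hi hj hij.ne).1 hij))
  by_contra hc
  have h1 : (⋂ i ∈ A, e i ∩ Ioi i) ∈ F := (Filter.cardinal_bInter_mem (not_le.1 hc)).2 fun i hi =>
    Filter.inter_mem (hb.mem_of_mem (he1 i (a1 hi))) (hI i)
  refine hp (Filter.mem_of_superset h1 fun j hj hjB => ?_)
  have h2 : ∀ i ∈ A, j ∈ e i ∧ i < j := fun i hi => mem_iInter₂.1 hj i hi
  exact lt_irrefl j (h2 j (a3 j hjB fun i hi =>
    ⟨fun c => absurd c (h2 i hi).2.not_gt, fun _ => (h2 i hi).1⟩)).2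

theorem tree [WellFoundedLT K] (hE : ∀ r r' x y, r' ≤ r → E r x y → E r' x y)
    {l κ : Cardinal.{0}} (hκ : κ.IsRegular) (h0 : ℵ₀ < κ) (hK : κ ≤ #K)
    (hI : ∀ j : K, #(Iio j) < κ) (hpow : ∀ j, #(Set K) < V.lam j)
    (hcof : ∀ A : Set K, κ ≤ #A → ∀ c < l, ∃ j ∈ A, c < V.lam j)
    {σ₀ : St P L K} (h : σ₀.Ok V E p₀) (hu : σ₀.B = Set.univ) : PropA E p₀ l ∨ PropB E p₀ := by
  by_contra hn
  obtain ⟨hA, hB⟩ := not_or.1 hn
  choose ch h1 h2 using fun σ : {σ : St P L K // σ.Ok V E p₀} =>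
    step hE hpow hcof hA hB σ.2
  let T : List K → {σ : St P L K // σ.Ok V E p₀} := fun t =>
    List.rec ⟨σ₀, h⟩ (fun i _ σ => ⟨ch σ i, (h1 σ i).1⟩) t
  obtain ⟨j, -, hj⟩ := closure_pt (S := (univ : Set K)) hκ h0 (by rwa [mk_univ])
    (fun y _ => hI y) _ fun t => h2 (T t)
  obtain ⟨_, ⟨t, ht, hb, rfl⟩, hmin⟩ := wellFounded_lt.has_min
    {α | ∃ t : List K, (∀ z ∈ t, z < j) ∧ j ∈ (T t).1.B ∧ (T t).1.f j = α}
    ⟨_, [], by simp, (show j ∈ σ₀.B from hu ▸ mem_univ j), rfl⟩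
  have h3 := hj t fun z hz => ⟨trivial, ht z hz⟩
  simp only [mem_ofPred_eq, not_and, not_forall, not_not] at h3
  obtain ⟨i, hi, hc⟩ := h3 hb
  refine hmin _ ⟨i :: t, fun z hz => ?_, hc, rfl⟩ ((h1 (T t) i).2 j hc).2
  rcases List.mem_cons.1 hz with rfl | hz
  exacts [hi, ht z hz]

end Tree

section Precip

variable {K : Type} {F : Filter K}

theorem part_meet {S Z : Set K} {W : Set (Set K)} (h : IsPart F S W) (hZ : Z ⊆ S) (hp : Zᶜ ∉ F) :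
    ∃ X ∈ W, (Z ∩ X)ᶜ ∉ F := by
  by_contra hn
  push Not at hn
  have : Z ∈ W := h.le_of_ge (y := insert Z W) ⟨by
      rintro X (rfl | hX)
      exacts [⟨hZ, hp⟩, h.prop.1 X hX],
    Set.pairwise_insert.2 ⟨h.prop.2, fun X hX _ => ⟨hn X hX, inter_comm Z X ▸ hn X hX⟩⟩⟩
    (subset_insert _ _) (mem_insert _ _)
  exact hp (by simpa using hn Z this)

theorem no_descent {L : Type} {T : Type*} [LinearOrder L] [WellFoundedLT L] [F.NeBot]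
    (hp : Precipitous F) (B : T → Set K) (f : T → K → L) (σ₀ : T) (h0 : B σ₀ = Set.univ)
    (hs : ∀ σ, ∀ S ⊆ B σ, Sᶜ ∉ F → ∃ τ, B τ ⊆ S ∧ (B τ)ᶜ ∉ F ∧ ∀ j ∈ B τ, f τ j < f σ j) :
    False := by
  have hu : (Set.univ : Set K)ᶜ ∉ F := by simp
  let Q : Set (Set K) × (Set K → T) → Prop := fun w =>
    IsPart F Set.univ w.1 ∧ ∀ X ∈ w.1, B (w.2 X) = X
  have next : ∀ w : {w // Q w}, ∃ w' : {w // Q w}, ∀ X ∈ w'.1.1, ∃ Y ∈ w.1.1, X ⊆ Y ∧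
      ∀ j ∈ X, f (w'.1.2 X) j < f (w.1.2 Y) j := by
    rintro ⟨⟨W, g⟩, hW, hg⟩
    obtain ⟨W', a1, a2, a3⟩ := exists_max_pairwise (fun X Y : Set K => (X ∩ Y)ᶜ ∈ F)
      (fun X Y h => inter_comm X Y ▸ h)
      {X | Xᶜ ∉ F ∧ ∃ τ, B τ = X ∧ ∃ Y ∈ W, X ⊆ Y ∧ ∀ j ∈ X, f τ j < f (g Y) j}
    have : Nonempty T := ⟨σ₀⟩
    choose! g' b1 b2 using fun X (hX : X ∈ W') => (a1 hX).2
    refine ⟨⟨⟨W', g'⟩, ⟨⟨fun X hX => ⟨subset_univ _, (a1 hX).1⟩, a2⟩, fun W'' hW'' hle Z hZ => ?_⟩,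
      b1⟩, b2⟩
    by_contra hZ'
    obtain ⟨Y, hY, hZY⟩ := part_meet hW (subset_univ Z) (hW''.1 Z hZ).2
    obtain ⟨τ, c1, c2, c3⟩ := hs (g Y) (Z ∩ Y) (by rw [hg Y hY]; exact inter_subset_right) hZY
    have d : ∀ X ∈ W', (Z ∩ X)ᶜ ∈ F := fun X hX =>
      hW''.2 hZ (hle hX) fun e => hZ' (e ▸ hX)
    have hτ : B τ ∈ W' := a3 _ ⟨c2, τ, rfl, Y, hY, c1.trans inter_subset_right, c3⟩
      fun X hX => Filter.mem_of_superset (d X hX) (compl_subset_compl.2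
        (inter_subset_inter_left _ (c1.trans inter_subset_left)))
    exact c2 (Filter.mem_of_superset (d _ hτ) (compl_subset_compl.2
      (subset_inter (c1.trans inter_subset_left) Subset.rfl)))
  choose nx hnx using next
  have hQ : Q ({Set.univ}, fun _ => σ₀) := by
    refine ⟨⟨⟨by rintro _ rfl; exact ⟨Subset.rfl, hu⟩, pairwise_singleton _ _⟩,
      fun W hW hle Z hZ => ?_⟩, by rintro _ rfl; exact h0⟩
    by_contra hne
    exact (hW.1 Z hZ).2 (by simpa using hW.2 hZ (hle rfl) hne)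
  let w : ℕ → {w // Q w} := fun n => Nat.rec ⟨_, hQ⟩ (fun _ w => nx w) n
  obtain ⟨X, x1, x2, j, hj⟩ := hp Set.univ hu (fun n => (w n).1.1) (fun n => (w n).2.1)
    fun n X hX => (hnx (w n) X hX).imp fun Y h => ⟨h.1, h.2.1⟩
  refine not_strictAnti_of_wellFoundedLT (fun n => f ((w n).1.2 (X n)) j)
    (strictAnti_nat_of_succ_lt fun n => ?_)
  obtain ⟨Y, y1, y2, y3⟩ := hnx (w n) (X (n + 1)) (x1 (n + 1))
  have : Y = X n := by
    by_contra hne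
    exact ((w (n + 1)).2.1.prop.1 _ (x1 (n + 1))).2 (Filter.mem_of_superset
      ((w n).2.1.prop.2 y1 (x1 n) hne) (compl_subset_compl.2 (subset_inter y2 (x2 n))))
  exact this ▸ y3 j (mem_iInter.1 hj (n + 1))

end Precip

theorem mk_Iio_tt {c : Cardinal.{0}} (x : c.ord.ToType) : #(Iio x) < c := by
  simpa using mk_Iio_lt x (by simp)

theorem exists_Iio_tt {l c : Cardinal.{0}} (hc : c < l) : ∃ y : l.ord.ToType, #(Iio y) = c := by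
  have h : c.ord < Ordinal.type (α := l.ord.ToType) (· < ·) := by
    rw [Ordinal.type_toType]; exact ord_lt_ord.2 hc
  refine ⟨Ordinal.enum (α := l.ord.ToType) (· < ·) ⟨c.ord, h⟩, ?_⟩
  have := Ordinal.card_typein (r := fun a b : l.ord.ToType => a < b)
    (Ordinal.enum (α := l.ord.ToType) (· < ·) ⟨c.ord, h⟩)
  rw [Ordinal.typein_enum, card_ord] at this
  exact this.symm

/-- The initial segment of type `c`. -/
def Seg (l c : Cardinal.{0}) : Set l.ord.ToType := {x | #(Iio x) < c}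

theorem seg_le {l c : Cardinal.{0}} (hc : c < l) : #(Seg l c) ≤ c := by
  obtain ⟨y, hy⟩ := exists_Iio_tt hc
  rw [← hy]
  refine mk_le_mk_of_subset fun x hx => ?_
  by_contra h
  exact (mk_le_mk_of_subset (Iio_subset_Iio (not_lt.1 h))).not_gt hx

theorem le_seg {l c : Cardinal.{0}} (hc : c < l) : c ≤ #(Seg l c) := by
  obtain ⟨y0, hy0⟩ := exists_Iio_tt hc
  obtain ⟨y, hy, hmin⟩ := wellFounded_lt.has_min {y : l.ord.ToType | c ≤ #(Iio y)} ⟨y0, hy0.ge⟩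
  exact le_trans hy (mk_le_mk_of_subset fun x hx =>
    (not_le.1 fun h : c ≤ #(Iio x) => hmin x h hx : #(Iio x) < c))

section Card

variable {l : Cardinal.{0}} (h₁ : ℵ₀ < l.ord.cof) (h₂ : l.ord.cof < l)

include h₁ in
theorem cof_reg : l.ord.cof.IsRegular :=
  isRegular_cof (Ordinal.one_lt_cof_iff.1 (one_lt_aleph0.trans h₁))

include h₂ in
theorem succ_lt' {c : Cardinal.{0}} (h0 : ℵ₀ ≤ c) (hc : c < l) : Order.succ c < l := by
  refine lt_of_le_of_ne (Order.succ_le_of_lt hc) fun e => ?_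
  have := (isRegular_succ h0).cof_ord
  rw [e] at this
  exact h₂.ne this

include h₂ in
theorem exists_mu {ν : Cardinal.{0}} (hν0 : ℵ₀ ≤ ν) (hν : ν < l) :
    ∃ μ : l.ord.cof.ord.ToType → Cardinal.{0}, (∀ j, μ j < l) ∧
    (∀ j, ν ≤ μ j) ∧ (∀ i j, i < j → Order.succ (Order.succ (μ i)) ≤ μ j) ∧
    ∀ c < l, ∃ j, c ≤ μ j := by
  obtain ⟨S, hS, hS'⟩ := Order.exists_cof_eq l.ord.ToType
  rw [Ordinal.cof_toType, ← mk_ord_toType l.ord.cof] at hS'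
  obtain ⟨e⟩ := Cardinal.eq.1 hS'
  let μ : l.ord.cof.ord.ToType → Cardinal.{0} := (wellFounded_lt (α := l.ord.cof.ord.ToType)).fix
    (fun j ih => max (max (#(Iio (e.symm j).1)) ν)
      (⨆ i : Iio j, Order.succ (Order.succ (ih i.1 i.2))))
  have hμ : ∀ j, μ j = max (max (#(Iio (e.symm j).1)) ν)
      (⨆ i : Iio j, Order.succ (Order.succ (μ i.1))) := fun j => WellFounded.fix_eq _ _ j
  have h2 : ∀ j, ν ≤ μ j := fun j => by
    rw [hμ]; exact (le_max_right _ _).trans (le_max_left _ _)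
  have h0 : ∀ j, ℵ₀ ≤ μ j := fun j => hν0.trans (h2 j)
  refine ⟨μ, fun j => ?_, h2, fun i j hij => ?_, fun c hc => ?_⟩
  · induction j using WellFoundedLT.induction with
    | ind j ih =>
      rw [hμ]
      refine max_lt (max_lt (mk_Iio_tt _) hν) (iSup_lt_of_lt_cof_ord (mk_Iio_tt j) fun i => ?_)
      exact succ_lt' h₂ ((h0 _).trans (Order.le_succ _)) (succ_lt' h₂ (h0 _) (ih i.1 i.2))
  · rw [hμ j]
    exact le_trans (le_ciSup (f := fun i : Iio j => Order.succ (Order.succ (μ i.1)))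
      bddAbove_of_small ⟨i, hij⟩) (le_max_right _ _)
  · obtain ⟨y, rfl⟩ := exists_Iio_tt hc
    obtain ⟨s, hs, hys⟩ := hS y
    refine ⟨e ⟨s, hs⟩, ?_⟩
    rw [hμ, e.symm_apply_apply]
    exact (mk_le_mk_of_subset (Iio_subset_Iio hys)).trans
      ((le_max_left _ _).trans (le_max_left _ _))

variable {P : Type} [Preorder P] (cc : CC P l.ord.cof)
  {E : P → l.ord.ToType → l.ord.ToType → Prop}

include h₁ h₂ cc in
theorem exists_root {p₀ : P} (hB : ¬ PropB E p₀) {ν : Cardinal.{0}} (hν : ν < l) :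
    ∃ V : Levels l.ord.ToType l.ord.cof.ord.ToType, (∀ j, ν < V.lam j) ∧
      (∀ A : Set l.ord.cof.ord.ToType, l.ord.cof ≤ #A → ∀ c < l, ∃ j ∈ A, c < V.lam j) ∧
      ∃ σ : St P l.ord.ToType l.ord.cof.ord.ToType, σ.Ok V E p₀ ∧ σ.B = Set.univ := by
  obtain ⟨μ, m1, m2, m3, m4⟩ := exists_mu h₂ (h₁.le.trans (le_max_right ν _)) (max_lt hν h₂)
  have hκ : ∀ j, l.ord.cof ≤ μ j := fun j => (le_max_right _ _).trans (m2 j)
  have h0 : ∀ j, ℵ₀ ≤ μ j := fun j => h₁.le.trans (hκ j)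
  have h0' : ∀ j, ℵ₀ ≤ Order.succ (μ j) := fun j => (h0 j).trans (Order.le_succ _)
  have s1 : ∀ j, Order.succ (μ j) < l := fun j => succ_lt' h₂ (h0 j) (m1 j)
  have s2 : ∀ j, Order.succ (Order.succ (μ j)) < l := fun j => succ_lt' h₂ (h0' j) (s1 j)
  have hlt : ∀ j, μ j < Order.succ (Order.succ (μ j)) := fun j =>
    (Order.lt_succ _).trans (Order.lt_succ _)
  let V : Levels l.ord.ToType l.ord.cof.ord.ToType :=
    { lam := fun j => Order.succ (Order.succ (μ j))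
      Lev := fun j => Seg l (Order.succ (Order.succ (μ j))) \ Seg l (μ j)
      Low := fun j => Seg l (μ j)
      reg := fun j => isRegular_succ (h0' j)
      unc := fun j => (h0 j).trans_lt (hlt j)
      k_lt := fun j => by rw [mk_ord_toType]; exact (hκ j).trans_lt (hlt j)
      low_lt := fun j => (seg_le (m1 j)).trans_lt (hlt j)
      sub := fun i j hij x hx => lt_of_lt_of_le hx.1 (m3 i j hij)
      ini := fun j y hy => hy.1
      ord := fun i j hij x hx y hy => by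
        by_contra h
        exact hy.2 (lt_of_le_of_lt (mk_le_mk_of_subset (Iio_subset_Iio (not_lt.1 h)))
          (lt_of_lt_of_le hx.1 (m3 i j hij))) }
  have key : ∀ j, ∃ α ∈ Seg l (Order.succ (μ j)),
      V.lam j ≤ #{y | y ∈ V.Lev j ∧ ∃ r ≤ p₀, Rk E (V.Low j) y α r []} := fun j =>
    fibre (V.reg j) (le_mk_diff (V.unc j).le (le_seg (s2 j)) (V.low_lt j))
      ((seg_le (s1 j)).trans_lt (Order.lt_succ _)) _ fun y _ =>
      exists_rk cc hB (isRegular_succ (h0 j)) ((hκ j).trans (Order.le_succ _))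
        ((seg_le (m1 j)).trans_lt (Order.lt_succ _)) (le_seg (s1 j)) (fun α hα => hα) y
  choose f hf1 hf2 using key
  have key2 : ∀ j y, (∃ r ≤ p₀, Rk E (V.Low j) y (f j) r []) →
      ∃ r ≤ p₀, Rk E (V.Low j) y (f j) r [] := fun _ _ h => h
  have : Nonempty P := ⟨p₀⟩
  choose! q hq1 hq2 using key2
  refine ⟨V, fun j => ((le_max_left _ _).trans (m2 j)).trans_lt (hlt j), fun A hA c hc => ?_,
    ⟨[], Set.univ, f,
      fun j => {y | y ∈ V.Lev j ∧ ∃ r ≤ p₀, Rk E (V.Low j) y (f j) r []}, q⟩,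
    fun j _ => ⟨fun y hy => hy.1, hf2 j, lt_trans (hf1 j) (Order.lt_succ _),
      fun y hy => ⟨hq1 j y hy.2, by simp [Nb], hq2 j y hy.2⟩⟩, rfl⟩
  obtain ⟨j₀, hj₀⟩ := m4 c hc
  obtain ⟨j, hj, h⟩ := exists_mem_diff hA (mk_Iio_tt j₀)
  refine ⟨j, hj, lt_of_le_of_lt (hj₀.trans ?_) (hlt j)⟩
  rcases (not_lt.1 h : j₀ ≤ j).lt_or_eq with h | rfl
  exacts [(hlt j₀).le.trans (m3 _ _ h), le_rfl]

include h₁ cc in
theorem dichotomy (h₂ : 2 ^ l.ord.cof < l) (hE : ∀ r r' x y, r' ≤ r → E r x y → E r' x y)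
    (p₀ : P) : PropA E p₀ l ∨ PropB E p₀ := by
  by_cases hB : PropB E p₀
  · exact Or.inr hB
  obtain ⟨V, v1, v2, σ, v3, v4⟩ := exists_root h₁ ((cantor _).trans h₂) cc hB h₂
  exact tree hE (cof_reg h₁) h₁ (mk_ord_toType _).ge mk_Iio_tt
    (fun j => by rw [mk_set, mk_ord_toType]; exact v1 j) v2 v3 v4

include h₁ h₂ cc in
theorem dichotomy_filter (hE : ∀ r r' x y, r' ≤ r → E r x y → E r' x y) (p₀ : P)
    {F : Filter l.ord.cof.ord.ToType} [F.NeBot] [CardinalInterFilter F l.ord.cof]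
    (hF : F ≤ Filter.cofinite) (hp : Precipitous F) {G : Set (Set l.ord.cof.ord.ToType)}
    (hG : #G < l) (hb : F.HasBasis (· ∈ G) id) : PropA E p₀ l ∨ PropB E p₀ := by
  by_contra hn
  obtain ⟨hA, hB⟩ := not_or.1 hn
  obtain ⟨V, v1, v2, σ, v3, v4⟩ := exists_root h₁ h₂ cc hB hG
  have hI : ∀ i, Ioi i ∈ F := fun i => by
    have h1 : (⋂ j ∈ Iio i, {j}ᶜ) ∈ F := (Filter.cardinal_bInter_mem (mk_Iio_tt i)).2
      fun j _ => hF (finite_singleton j).compl_mem_cofinite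
    refine Filter.mem_of_superset (Filter.inter_mem h1
      (hF (finite_singleton i).compl_mem_cofinite)) fun j hj => ?_
    rcases lt_trichotomy j i with h | h | h
    exacts [absurd rfl (mem_iInter₂.1 hj.1 j h), absurd h hj.2, h]
  refine no_descent (T := {σ : St P _ _ // σ.Ok V E p₀}) hp (fun σ => σ.1.B) (fun σ => σ.1.f)
    ⟨σ, v3⟩ v4 fun τ S hS hS' => ?_
  obtain ⟨τ', k₁, k₂, k₃⟩ := step_filter' hE v2 hA hB hI hb
    (σ := ⟨τ.1.s, S, τ.1.f, τ.1.Y, τ.1.q⟩) (fun j _ => v1 j) (fun j hj => τ.2 j (hS hj)) hS'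
  exact ⟨⟨τ', k₁⟩, fun j hj => (k₃ j hj).1, k₂, fun j hj => (k₃ j hj).2⟩

end Card

/-- `D` describes the name of a function that is total below `b`. -/
structure FunName {P T L : Type} [Preorder P] (D : P → T → L → Prop) (b : P) : Prop where
  mono : ∀ r r' t x, r' ≤ r → D r t x → D r' t x
  func : ∀ r t x x', D r t x → D r t x' → x = x'
  tot : ∀ r ≤ b, ∀ t, ∃ r' ≤ r, ∃ x, D r' t x

section Convert

variable {P L : Type} [Preorder P] [LinearOrder L] [WellFoundedLT L] {E : P → L → L → Prop}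

theorem convA {l : Cardinal.{0}} (h₁ : ℵ₀ < l.ord.cof) (h₂ : l.ord.cof < l) (hL : #L ≤ l)
    (cc : CC P l.ord.cof) {p₀ : P} (hA : PropA E p₀ l) :
    ∃ b ≤ p₀, ∃ D : P → L → L → Prop, FunName D b ∧
      (∀ r t t' x, D r t x → D r t' x → t = t') ∧
      ∀ r t t' x x', D r t x → D r t' x' → x < x' → ¬ E r x x' := by
  obtain ⟨Z, hZ, hp, hE⟩ := hA
  have hl : ℵ₀ ≤ l := (h₁.trans h₂).le
  have : Nonempty P := ⟨p₀⟩
  have key : ∀ y ∈ Prod.fst '' Z, ∃ r, (y, r) ∈ Z := by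
    rintro _ ⟨z, hz, rfl⟩; exact ⟨z.2, hz⟩
  choose! q hq using key
  generalize Prod.fst '' Z = Y at hZ hq
  obtain ⟨b, hb, H⟩ : ∃ b ≤ p₀, ∀ U : Set L, #U < l → ∀ r ≤ b, ∃ y ∈ Y, y ∉ U ∧
      ∃ r', r' ≤ r ∧ r' ≤ q y := by
    by_contra h
    push Not at h
    obtain ⟨A, a1, a2, a3⟩ := cc.small
      {r | ∃ U : Set L, #U < l ∧ ∀ y ∈ Y, y ∉ U → ∀ r' ≤ r, ¬ r' ≤ q y}
    choose U u1 u2 using fun a : A => a1 a.2
    have hU : #(⋃ a, U a) < l := (mk_iUnion_le _).trans_lt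
      (mul_lt_of_lt hl (a2.trans h₂) (iSup_lt_of_lt_cof_ord a2 u1))
    obtain ⟨y, hy, hyU⟩ := exists_mem_diff hZ hU
    obtain ⟨U', hU', r, hr, h⟩ := h (q y) (hp _ (hq y hy))
    obtain ⟨a, ha, r', h₃, h₄⟩ := a3 r ⟨U', hU', h⟩
    exact u2 ⟨a, ha⟩ y hy (fun e => hyU (mem_iUnion.2 ⟨_, e⟩)) r' h₄ (h₃.trans hr)
  obtain ⟨F, f1, f2, f3⟩ := exists_max_pairwise (fun s t : Set L => Disjoint s t)
    (fun _ _ h => h.symm)
    {W | W ⊆ Y ∧ #W < l.ord.cof ∧ ∀ r ≤ b, ∃ y ∈ W, ∃ r', r' ≤ r ∧ r' ≤ q y}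
  have hF : l ≤ #F := by
    by_contra h
    have hU : #(⋃₀ F) < l := (mk_sUnion_le _).trans_lt (mul_lt_of_lt hl (not_le.1 h)
      (lt_of_le_of_lt (ciSup_le' fun s => (f1 s.2).2.1.le) h₂))
    obtain ⟨A, a1, a2, a3⟩ := cc.small {r | ∃ y ∈ Y, y ∉ ⋃₀ F ∧ r ≤ q y}
    choose g g1 g2 g3 using fun a : A => a1 a.2
    have hW : ∀ r ≤ b, ∃ y ∈ range g, ∃ r', r' ≤ r ∧ r' ≤ q y := fun r hr => by
      obtain ⟨y, hy, hyU, r', h₃, h₄⟩ := H _ hU r hr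
      obtain ⟨a, ha, r'', h₅, h₆⟩ := a3 r' ⟨y, hy, hyU, h₄⟩
      exact ⟨_, ⟨⟨a, ha⟩, rfl⟩, r'', h₅.trans h₃, h₆.trans (g3 ⟨a, ha⟩)⟩
    have hm := f3 (range g) ⟨by rintro _ ⟨a, rfl⟩; exact g1 a, mk_range_le.trans_lt a2, hW⟩
      fun s hs => Set.disjoint_left.2 (by rintro _ ⟨a, rfl⟩ e; exact g2 a ⟨s, hs, e⟩)
    obtain ⟨_, ⟨a, rfl⟩, -⟩ := hW b le_rfl
    exact g2 a ⟨_, hm, a, rfl⟩
  obtain ⟨e⟩ := hL.trans hF
  refine ⟨b, hb, fun r t x => x ∈ (e t).1 ∧ r ≤ q x ∧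
    ∀ x' ∈ (e t).1, x' < x → ∀ r' ≤ r, ¬ r' ≤ q x', ⟨fun r r' t x hr h =>
      ⟨h.1, hr.trans h.2.1, fun x' h₃ h₄ r₁ h₅ => h.2.2 x' h₃ h₄ r₁ (h₅.trans hr)⟩,
    fun r t x x' h h' => ?_, fun r hr t => ?_⟩, fun r t t' x h h' => ?_,
    fun r t t' x x' h h' hx => ?_⟩
  · rcases lt_trichotomy x x' with c | c | c
    exacts [absurd h.2.1 (h'.2.2 x h.1 c r le_rfl), c, absurd h'.2.1 (h.2.2 x' h'.1 c r le_rfl)]
  · obtain ⟨x, ⟨hx, r', h₃, h₄⟩, hmin⟩ := wellFounded_lt.has_min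
      {y | y ∈ (e t).1 ∧ ∃ r', r' ≤ r ∧ r' ≤ q y} ((f1 (e t).2).2.2 r hr)
    exact ⟨r', h₃, x, hx, h₄, fun x' h₅ h₆ r₁ h₇ h₈ => hmin x' ⟨h₅, r₁, h₇.trans h₃, h₈⟩ h₆⟩
  · by_contra hne
    exact Set.disjoint_left.1 (f2 (e t).2 (e t').2 fun c => hne (e.injective (Subtype.ext c)))
      h.1 h'.1
  · exact hE _ (hq x ((f1 (e t).2).1 h.1)) _ (hq x' ((f1 (e t').2).1 h'.1)) hx r h.2.1 h'.2.1

variable (E) in
/-- `r` decides the first steps of the construction of the clique. -/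
def Dec (y : L) (Gd : P → List L → Prop) (r : P) : List L → Prop
  | [] => Gd r []
  | x :: s => Dec y Gd r s ∧ (Ext E y r s x ∧ Gd r (x :: s)) ∧
      ∀ x' < x, ∀ r' ≤ r, ¬ (Ext E y r' s x' ∧ Gd r' (x' :: s))

theorem convB (hE : ∀ r r' x y, r' ≤ r → E r x y → E r' x y) {p₀ : P} (hB : PropB E p₀) :
    ∃ b ≤ p₀, ∃ D : P → ℕ∞ → L → Prop, FunName D b ∧
      ∀ r m n x x', D r m x → D r n x' → m < n → x < x' ∧ E r x x' := by
  obtain ⟨y, p, hp, Gd, g1, g2, g3⟩ := hB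
  have mono : ∀ r r' s, r' ≤ r → Dec E y Gd r s → Dec E y Gd r' s := by
    intro r r' s hr
    induction s with
    | nil => exact g1 _ _ _ hr
    | cons x s ih =>
      exact fun h => ⟨ih h.1, ⟨h.2.1.1.mono hE hr, g1 _ _ _ hr h.2.1.2⟩,
        fun x' hx r₁ h₁ => h.2.2 x' hx r₁ (h₁.trans hr)⟩
  have good : ∀ r s, Dec E y Gd r s → Gd r s := by
    intro r s h
    cases s with
    | nil => exact h
    | cons x s => exact h.2.1.2
  have next : ∀ r s, Dec E y Gd r s → ∃ r' ≤ r, ∃ x, Dec E y Gd r' (x :: s) := by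
    intro r s h
    obtain ⟨r₀, hr₀, x₀, h₀⟩ := g3 r s (good r s h)
    obtain ⟨x, ⟨r', hr', hx⟩, hmin⟩ := wellFounded_lt.has_min
      {x | ∃ r' ≤ r, Ext E y r' s x ∧ Gd r' (x :: s)} ⟨x₀, r₀, hr₀, h₀⟩
    exact ⟨r', hr', x, mono _ _ _ hr' h, hx,
      fun x' h₁ r₁ h₂ h₃ => hmin x' ⟨r₁, h₂.trans hr', h₃⟩ h₁⟩
  have uniq : ∀ r s s', Dec E y Gd r s → Dec E y Gd r s' → s.length = s'.length → s = s' := by
    intro r s
    induction s with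
    | nil => intro s' _ _ h; exact (List.length_eq_zero_iff.1 h.symm).symm
    | cons x s ih =>
      intro s' h h' e
      cases s' with
      | nil => simp at e
      | cons x' s' =>
        obtain rfl := ih s' h.1 h'.1 (by simpa using e)
        rcases lt_trichotomy x x' with c | rfl | c
        exacts [absurd h.2.1 (h'.2.2 x c r le_rfl), rfl, absurd h'.2.1 (h.2.2 x' c r le_rfl)]
  have sub : ∀ r t s, Dec E y Gd r t → Dec E y Gd r s → t.length ≤ s.length →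
      ∀ z ∈ t, z ∈ s := by
    intro r t s ht
    induction s with
    | nil => intro _ h z hz; rw [List.length_eq_zero_iff.1 (Nat.le_zero.1 h)] at hz; exact hz
    | cons x s ih =>
      intro h e z hz
      rcases e.lt_or_eq with e | e
      · exact List.mem_cons_of_mem _ (ih h.1 (Nat.lt_succ_iff.1 e) z hz)
      · exact uniq r _ _ ht h e ▸ hz
  have len : ∀ r ≤ p, ∀ n : ℕ, ∃ r' ≤ r, ∃ s : List L, s.length = n ∧ Dec E y Gd r' s := by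
    intro r hr n
    induction n with
    | zero => exact ⟨r, le_rfl, [], rfl, g1 _ _ _ hr g2⟩
    | succ n ih =>
      obtain ⟨r', h₁, s, rfl, h₂⟩ := ih
      obtain ⟨r'', h₃, x, h₄⟩ := next _ _ h₂
      exact ⟨r'', h₃.trans h₁, x :: s, rfl, h₄⟩
  refine ⟨p, hp, fun r n x => (n = ⊤ ∧ x = y) ∨
    ∃ s : List L, n = (s.length : ℕ∞) ∧ Dec E y Gd r (x :: s), ⟨?_, ?_, fun r hr n => ?_⟩, ?_⟩
  · rintro r r' t x hr (h | ⟨s, h₁, h₂⟩)
    exacts [Or.inl h, Or.inr ⟨s, h₁, mono _ _ _ hr h₂⟩]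
  · rintro r t x x' (⟨rfl, rfl⟩ | ⟨s, rfl, h⟩) (⟨e, rfl⟩ | ⟨s', e, h'⟩)
    · rfl
    · simp at e
    · simp at e
    · exact (List.cons.inj (uniq r _ _ h h' (by simpa using e))).1
  · induction n using ENat.recTopCoe with
    | top => exact ⟨r, le_rfl, y, Or.inl ⟨rfl, rfl⟩⟩
    | coe n =>
      obtain ⟨r', h₁, s, rfl, h₂⟩ := len r hr n
      obtain ⟨r'', h₃, x, h₄⟩ := next _ _ h₂
      exact ⟨r'', h₃.trans h₁, x, Or.inr ⟨s, rfl, h₄⟩⟩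
  · rintro r m n x x' (⟨rfl, rfl⟩ | ⟨s, rfl, h⟩) (⟨rfl, rfl⟩ | ⟨s', rfl, h'⟩) e
    · simp at e
    · simp at e
    · exact h.2.1.1.2
    · exact h'.2.1.1.1 x (sub r (x :: s) s' h h'.1 (by simpa using e) x List.mem_cons_self)

end Convert

/-- The ordinal coded by a point. -/
noncomputable def ty {l : Cardinal.{0}} (x : l.ord.ToType) : Ordinal.{0} :=
  Ordinal.typein (α := l.ord.ToType) (· < ·) x

theorem plain {l : Cardinal.{0}} (c : Ordinal.{0} → Ordinal.{0} → Bool)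
    (h : PropA (fun (_ : Unit) (x y : l.ord.ToType) => c (ty x) (ty y) = true) () l ∨
      PropB (fun (_ : Unit) (x y : l.ord.ToType) => c (ty x) (ty y) = true) ()) :
    (∃ H : Set Ordinal.{0}, H ⊆ Set.Iio l.ord ∧ Cardinal.mk H = Cardinal.lift.{1} l ∧
      ∀ α ∈ H, ∀ β ∈ H, α < β → c α β = false) ∨
    (∃ f : ℕ → Ordinal.{0}, ∃ γ : Ordinal.{0}, StrictMono f ∧ γ < l.ord ∧ (∀ n, f n < γ) ∧
      (∀ m n, m < n → c (f m) (f n) = true) ∧ ∀ n, c (f n) γ = true) := by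
  have hlt : ∀ x y : l.ord.ToType, ty x < ty y ↔ x < y := fun x y =>
    Ordinal.typein_lt_typein (α := l.ord.ToType) (· < ·)
  rcases h with ⟨Z, h₁, -, h₂⟩ | hB
  · refine Or.inl ⟨ty '' (Prod.fst '' Z), ?_, ?_, ?_⟩
    · rintro _ ⟨x, -, rfl⟩
      exact Ordinal.typein_lt_self x
    · have e : #(Prod.fst '' Z) = l := le_antisymm ((mk_set_le _).trans (mk_ord_toType l).le) h₁
      have := mk_image_eq_lift ty (Prod.fst '' Z) (Ordinal.typein_injective _)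
      rwa [e, lift_id'] at this
    · rintro _ ⟨_, ⟨z, hz, rfl⟩, rfl⟩ _ ⟨_, ⟨w, hw, rfl⟩, rfl⟩ h
      simpa using h₂ z hz w hw ((hlt _ _).1 h) () le_rfl le_rfl
  · obtain ⟨b, -, D, k₁, k₂⟩ := convB (fun _ _ _ _ _ h => h) hB
    choose r _ x hx using k₁.tot b le_rfl
    have H := fun m n (h : m < n) => k₂ () m n (x m) (x n) (hx m) (hx n) h
    exact Or.inr ⟨fun n => ty (x n), ty (x ⊤),
      fun m n h => (hlt _ _).2 (H m n (by simpa using h)).1, Ordinal.typein_lt_self _,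
      fun n => (hlt _ _).2 (H n ⊤ (by simp)).1, fun m n h => (H m n (by simpa using h)).2,
      fun n => (H n ⊤ (by simp)).2⟩

theorem precip_main (l : Cardinal.{0}) (h₁ : ℵ₀ < l.ord.cof) (h₂ : l.ord.cof < l)
    (F : Filter l.ord.cof.ord.ToType) [F.NeBot] [CardinalInterFilter F l.ord.cof]
    (hF : F ≤ Filter.cofinite) (hp : Precipitous F) (G : Set (Set l.ord.cof.ord.ToType))
    (hG : #G < l) (hb : F.HasBasis (· ∈ G) id) (c : Ordinal.{0} → Ordinal.{0} → Bool) :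
    (∃ H : Set Ordinal.{0}, H ⊆ Set.Iio l.ord ∧ Cardinal.mk H = Cardinal.lift.{1} l ∧
      ∀ α ∈ H, ∀ β ∈ H, α < β → c α β = false) ∨
    (∃ f : ℕ → Ordinal.{0}, ∃ γ : Ordinal.{0}, StrictMono f ∧ γ < l.ord ∧ (∀ n, f n < γ) ∧
      (∀ m n, m < n → c (f m) (f n) = true) ∧ ∀ n, c (f n) γ = true) :=
  plain c (dichotomy_filter h₁ h₂ (fun _ _ => mk_le_aleph0.trans_lt h₁) (fun _ _ _ _ _ h => h) ()
    hF hp hG hb)

end Pool.Agent.MP_e34318_lc.Cc
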