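import Pool.Agent.MP_e34318_lc.Cc.NDefs
import Pool.Agent.MP_e34318_lc.Cc.Core

namespace Pool.Agent.MP_e34318_lc.Cc

open Cardinal Set

theorem normal_complete {κ : Cardinal.{0}} {D : Filter κ.ord.ToType} (h : IsNormal D) :
    CardinalInterFilter D κ := by
  classical
  refine ⟨fun S hS hm => ?_⟩
  obtain ⟨b, hb⟩ := exists_Iio_tt hS
  obtain ⟨e⟩ := Cardinal.eq.1 hb
  refine Filter.mem_of_superset (Filter.inter_mem (h.2.1 b)
    (h.2.2 (fun i => if hi : i < b then (e ⟨i, hi⟩).1 else Set.univ) fun i => ?_)) ?_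
  · split_ifs with hi
    exacts [hm _ (e ⟨i, hi⟩).2, Filter.univ_mem]
  · rintro j ⟨h₁, h₂⟩ s hs
    have := h₂ (e.symm ⟨s, hs⟩).1 (lt_trans (e.symm ⟨s, hs⟩).2 h₁)
    rw [dif_pos (show (e.symm ⟨s, hs⟩).1 < b from (e.symm ⟨s, hs⟩).2)] at this
    simpa using this

section

variable {K : Type} [LinearOrder K]

/-- The normal filter generated by `D`, `B` and the complements of the members of `C`. -/
def gen (D : Filter K) (hD : IsNormal D) (a : K) (B : Set K) (C : Set (Set K)) (h0 : ∅ ∈ C) :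
    Filter K where
  sets := {S | ∃ X ∈ D, ∃ n : List K → Set K, (∀ t, n t ∈ C) ∧
    ∀ j ∈ X, j ∈ B → (∀ t, (∀ z ∈ t, z < j) → j ∉ n t) → j ∈ S}
  univ_sets := ⟨Set.univ, Filter.univ_mem, fun _ => ∅, fun _ => h0, fun _ _ _ _ => trivial⟩
  sets_of_superset := fun ⟨X, hX, n, h₁, h₂⟩ h =>
    ⟨X, hX, n, h₁, fun j a b c => h (h₂ j a b c)⟩
  inter_sets := by
    classical
    rintro S S' ⟨X, hX, n, h₁, h₂⟩ ⟨X', hX', n', h₁', h₂'⟩
    have := hD.1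
    obtain ⟨b, hb⟩ := Filter.nonempty_of_mem (hD.2.1 a)
    refine ⟨X ∩ X' ∩ Ioi b, Filter.inter_mem (Filter.inter_mem hX hX') (hD.2.1 b),
      fun t => List.casesOn t ∅ fun i t => if i = a then n t else n' t, fun t => ?_,
      fun j hj hB H => ⟨h₂ j hj.1.1 hB fun t ht => ?_, h₂' j hj.1.2 hB fun t ht => ?_⟩⟩
    · cases t with
      | nil => exact h0
      | cons i t => dsimp only; split_ifs; exacts [h₁ t, h₁' t]
    · simpa using H (a :: t) (List.forall_mem_cons.2 ⟨lt_trans hb hj.2, ht⟩)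
    · simpa [(show a < b from hb).ne'] using H (b :: t) (List.forall_mem_cons.2 ⟨hj.2, ht⟩)

theorem gen_le {D : Filter K} (hD : IsNormal D) (a : K) (B : Set K) (C : Set (Set K))
    (h0 : ∅ ∈ C) : gen D hD a B C h0 ≤ D := fun X hX =>
  ⟨X, hX, fun _ => ∅, fun _ => h0, fun _ h _ _ => h⟩

theorem gen_normal {D : Filter K} (hD : IsNormal D) (a : K) (B : Set K) (C : Set (Set K))
    (h0 : ∅ ∈ C) (h : ∅ ∉ gen D hD a B C h0) : IsNormal (gen D hD a B C h0) := by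
  refine ⟨Filter.empty_mem_iff_bot.not.1 h |> Filter.neBot_iff.2,
    fun i => gen_le hD a B C h0 (hD.2.1 i), fun S hS => ?_⟩
  choose X hX n h₁ h₂ using hS
  refine ⟨_, hD.2.2 X hX, fun t => List.casesOn t ∅ fun i t => n i t, fun t => ?_,
    fun j hj hB H i hi => h₂ i j (hj i hi) hB fun t ht =>
      H (i :: t) (List.forall_mem_cons.2 ⟨hi, ht⟩)⟩
  cases t with
  | nil => exact h0
  | cons i t => exact h₁ i t

theorem list_bound {a j : K} (ha : a < j) (t : List K) (ht : ∀ z ∈ t, z < j) :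
    ∃ i < j, ∀ z ∈ t, z ≤ i := by
  induction t with
  | nil => exact ⟨a, ha, by simp⟩
  | cons z t ih =>
    obtain ⟨h₁, h₂⟩ := List.forall_mem_cons.1 ht
    obtain ⟨i, hi, h⟩ := ih h₂
    exact ⟨max i z, max_lt hi h₁, List.forall_mem_cons.2
      ⟨le_max_right _ _, fun w hw => (h w hw).trans (le_max_left _ _)⟩⟩

end

variable {P L : Type} [Preorder P] [LinearOrder L] [WellFoundedLT L] {κ l : Cardinal.{0}}
  {V : Levels L κ.ord.ToType} {E : P → L → L → Prop} {p₀ : P}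

theorem step_normal (hE : ∀ r r' x y, r' ≤ r → E r x y → E r' x y)
    (hcof : ∀ A : Set κ.ord.ToType, κ ≤ #A → ∀ c < l, ∃ j ∈ A, c < V.lam j)
    (hA : ¬ PropA E p₀ l) (hB : ¬ PropB E p₀) {D : Filter κ.ord.ToType} (hD : IsNormal D)
    (H : ∀ D' ≤ D, IsNormal D' → ∃ F ≤ D', F.NeBot ∧ CardinalInterFilter F κ ∧
      ∃ G : Set (Set κ.ord.ToType), #G < l ∧ F.HasBasis (· ∈ G) id)
    (a : κ.ord.ToType) {σ : St P L κ.ord.ToType} (h : σ.Ok V E p₀) :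
    ∃ X ∈ D, ∃ ch : List κ.ord.ToType → St P L κ.ord.ToType,
      (∀ t, (ch t).Ok V E p₀ ∧ ∀ j ∈ (ch t).B, (ch t).f j < σ.f j) ∧
      ∀ j ∈ X, j ∈ σ.B → ∃ t, (∀ z ∈ t, z < j) ∧ j ∈ (ch t).B := by
  let C : Set (Set κ.ord.ToType) :=
    {N | ∃ τ : St P L κ.ord.ToType, (τ.Ok V E p₀ ∧ ∀ j ∈ τ.B, τ.f j < σ.f j) ∧ τ.B = N}
  have h0 : ∅ ∈ C := ⟨⟨σ.s, ∅, σ.f, σ.Y, σ.q⟩, ⟨fun j hj => hj.elim, fun j hj => hj.elim⟩, rfl⟩
  by_cases hg : ∅ ∈ gen D hD a σ.B C h0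
  · obtain ⟨X, hX, n, h₁, h₂⟩ := hg
    choose ch c1 c2 using h₁
    refine ⟨X, hX, ch, c1, fun j hj hjB => ?_⟩
    by_contra hn
    exact h₂ j hj hjB fun t ht e => hn ⟨t, ht, c2 t ▸ e⟩
  obtain ⟨F, f1, f2, f3, G, f4, f5⟩ := H _ (gen_le hD a _ C h0) (gen_normal hD a _ C h0 hg)
  have hI : ∀ i, Ioi i ∈ F := fun i => f1 (gen_le hD a _ C h0 (hD.2.1 i))
  have hB' : σ.B ∈ F := f1 ⟨Set.univ, Filter.univ_mem, fun _ => ∅, fun _ => h0, fun _ _ h _ => h⟩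
  have hs : #{j | ¬ #G < V.lam j} < κ := by
    by_contra hc
    obtain ⟨j, h₁, h₂⟩ := hcof _ (not_lt.1 hc) _ f4
    exact h₁ h₂
  have hG : {j | #G < V.lam j} ∈ F := by
    refine Filter.mem_of_superset ((Filter.cardinal_bInter_mem hs).2 fun i _ => hI i)
      fun j hj => ?_
    by_contra hc
    exact lt_irrefl j (mem_iInter₂.1 hj j hc)
  obtain ⟨τ, t1, t2, t3⟩ := step_filter' hE hcof hA hB hI f5
    (σ := ⟨σ.s, σ.B ∩ {j | #G < V.lam j}, σ.f, σ.Y, σ.q⟩) (fun j hj => hj.2)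
    (fun j hj => h j hj.1)
    (fun hc => Filter.empty_notMem F (by simpa using Filter.inter_mem (Filter.inter_mem hB' hG) hc))
  exact absurd (f1 ⟨Set.univ, Filter.univ_mem, fun _ => τ.B,
    fun _ => ⟨τ, ⟨t1, fun j hj => (t3 j hj).2⟩, rfl⟩, fun j _ _ h => h [] (by simp)⟩) t2

theorem tree_normal (hE : ∀ r r' x y, r' ≤ r → E r x y → E r' x y) (h0 : ℵ₀ < κ)
    (hcof : ∀ A : Set κ.ord.ToType, κ ≤ #A → ∀ c < l, ∃ j ∈ A, c < V.lam j)
    {D : Filter κ.ord.ToType} (hD : IsNormal D)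
    (H : ∀ D' ≤ D, IsNormal D' → ∃ F ≤ D', F.NeBot ∧ CardinalInterFilter F κ ∧
      ∃ G : Set (Set κ.ord.ToType), #G < l ∧ F.HasBasis (· ∈ G) id)
    {σ₀ : St P L κ.ord.ToType} (h : σ₀.Ok V E p₀) (hu : σ₀.B = Set.univ) :
    PropA E p₀ l ∨ PropB E p₀ := by
  by_contra hn
  obtain ⟨hA, hB⟩ := not_or.1 hn
  have := hD.1
  have := normal_complete hD
  obtain ⟨a, -⟩ := Filter.nonempty_of_mem (Filter.univ_mem (f := D))
  choose X hX ch h1 h2 using fun σ : {σ : St P L κ.ord.ToType // σ.Ok V E p₀} =>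
    step_normal hE hcof hA hB hD H a σ.2
  let T : List (List κ.ord.ToType) → {σ : St P L κ.ord.ToType // σ.Ok V E p₀} := fun t =>
    List.rec ⟨σ₀, h⟩ (fun i _ σ => ⟨ch σ i, (h1 σ i).1⟩) t
  have hX' : ∀ i : κ.ord.ToType,
      (⋂ t : List (List (Iic i)), X (T (t.map (List.map Subtype.val)))) ∈ D := fun i => by
    refine (Filter.cardinal_iInter_mem (c := κ) ?_).2 fun t => hX _
    refine (mk_list_le_max _).trans_lt (max_lt h0 ((mk_list_le_max _).trans_lt (max_lt h0 ?_)))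
    rw [← Iio_insert]
    exact mk_insert_le.trans_lt (add_lt_of_lt h0.le (mk_Iio_tt i) (one_lt_aleph0.trans h0))
  obtain ⟨j, hja, hj⟩ := Filter.nonempty_of_mem (Filter.inter_mem (hD.2.1 a) (hD.2.2 _ hX'))
  obtain ⟨_, ⟨t, ht, hb, rfl⟩, hmin⟩ := wellFounded_lt.has_min
    {α | ∃ t : List (List κ.ord.ToType), (∀ u ∈ t, ∀ z ∈ u, z < j) ∧ j ∈ (T t).1.B ∧
      (T t).1.f j = α} ⟨_, [], by simp, (show j ∈ σ₀.B from hu ▸ mem_univ j), rfl⟩
  obtain ⟨i, hi, hti⟩ := list_bound hja t.flatten fun z hz => by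
    obtain ⟨u, hu, hz⟩ := List.mem_flatten.1 hz
    exact ht u hu z hz
  have hjX : j ∈ X (T t) := by
    have h3 : ∀ u ∈ t, ∀ z ∈ u, z ∈ Iic i := fun u hu z hz =>
      hti z (List.mem_flatten.2 ⟨u, hu, hz⟩)
    lift t to List (List (Iic i)) using h3
    exact mem_iInter.1 (hj i hi) t
  obtain ⟨u, hu, hc⟩ := h2 (T t) j hjX hb
  exact hmin _ ⟨u :: t, List.forall_mem_cons.2 ⟨hu, ht⟩, hc, rfl⟩ ((h1 (T t) u).2 j hc)

theorem normal_main (l : Cardinal.{0}) (h₁ : ℵ₀ < l.ord.cof) (h₂ : l.ord.cof < l)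
    (D : Filter l.ord.cof.ord.ToType) (hD : IsNormal D)
    (H : ∀ D' ≤ D, IsNormal D' → ∃ F ≤ D', F.NeBot ∧ CardinalInterFilter F l.ord.cof ∧
      ∃ G : Set (Set l.ord.cof.ord.ToType), #G < l ∧ F.HasBasis (· ∈ G) id)
    (c : Ordinal.{0} → Ordinal.{0} → Bool) :
    (∃ H : Set Ordinal.{0}, H ⊆ Set.Iio l.ord ∧ Cardinal.mk H = Cardinal.lift.{1} l ∧
      ∀ α ∈ H, ∀ β ∈ H, α < β → c α β = false) ∨
    (∃ f : ℕ → Ordinal.{0}, ∃ γ : Ordinal.{0}, StrictMono f ∧ γ < l.ord ∧ (∀ n, f n < γ) ∧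
      (∀ m n, m < n → c (f m) (f n) = true) ∧ ∀ n, c (f n) γ = true) := by
  refine plain c ?_
  by_cases hB : PropB (fun (_ : Unit) (x y : l.ord.ToType) => c (ty x) (ty y) = true) ()
  · exact Or.inr hB
  obtain ⟨V, -, v2, σ, v3, v4⟩ := exists_root h₁ h₂ (fun _ _ => mk_le_aleph0.trans_lt h₁) hB h₂
  exact tree_normal (fun _ _ _ _ _ h => h) h₁ v2 hD H v3 v4

end Pool.Agent.MP_e34318_lc.Cc
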