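import Pool.Agent.MP_c6cf52_lc.Names

namespace Pool.Agent.MP_e34318_lc

open Pool.Agent.MP_c6cf52_lc

/-- The canonical name of the ordinal `a`. -/
noncomputable def chk (P : Type) [Preorder P] [OrderTop P] (a : Ordinal.{0}) : Name P :=
  Name.setN (wellFounded_lt (α := a.ToType)) Set.univ

end Pool.Agent.MP_e34318_lc
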