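import Pool.Agent.MP_c6cf52_lc.Tools
import Pool.Agent.MP_e34318_lc.Defs
import Pool.Agent.MP_e34318_lc.Cc.Chk
import Pool.Agent.MP_e34318_lc.Cc.Core

namespace Pool.Agent.MP_e34318_lc.Cc

open Pool.Agent.MP_c6cf52_lc Name Gen Cardinal Set

variable {P : Type} [Preorder P] [OrderTop P] {g : Gen P}

section Names

variable {T : Type} [LinearOrder T] [WellFoundedLT T]

/-- The name of the ordinal coded by `x`. -/
noncomputable def o (x : T) : Name P := ordN (wellFounded_lt (α := T)) x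

variable (T) in
/-- The name of the order type of `T`. -/
noncomputable def al : Name P := setN (wellFounded_lt (α := T)) Set.univ

theorem E_al (h : al T ∈ g.N) {x : g.M} :
    g.E x (g.v (al T)) ↔ ∃ y : T, o y ∈ g.N ∧ g.v (o y) = x := by
  unfold al at h ⊢
  rw [E_setN _ h]
  simp only [mem_univ, true_and]
  rfl

theorem o_lt {a b : T} (ha : o a ∈ g.N) (hb : o b ∈ g.N) :
    g.E (g.v (o a)) (g.v (o b)) ↔ a < b := ord_lt_iff _ lt_trichotomy ha hb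

theorem o_inj {a b : T} (ha : o a ∈ g.N) (hb : o b ∈ g.N) (h : g.v (o a) = g.v (o b)) : a = b :=
  ord_inj _ lt_trichotomy ha hb h

theorem o_mem [Countable T] (h : al T ∈ g.N) (a : T) : o a ∈ g.N :=
  setN_mem _ h (Set.to_countable _) (mem_univ a)

theorem isUPair_upair {σ τ : Name P} (hσ : σ ∈ g.N) (hτ : τ ∈ g.N) :
    IsUPair g.E (g.v (upair σ τ)) (g.v σ) (g.v τ) := fun _ => E_upair hσ hτ

theorem homog_of {c A i : g.M} (hk : al T ∈ g.N) (hA : ∀ x, g.E x A → g.E x (g.v (al T)))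
    (H : ∀ x y : T, x < y → o x ∈ g.N → o y ∈ g.N → g.E (g.v (o x)) A → g.E (g.v (o y)) A →
      App g.E c (g.v (upair (o x) (o y))) i) : Homog g.E c A i := by
  intro a b p ha hb hne hp
  obtain ⟨x, hx, rfl⟩ := (E_al hk).1 (hA a ha)
  obtain ⟨y, hy, rfl⟩ := (E_al hk).1 (hA b hb)
  rcases lt_trichotomy x y with h | rfl | h
  · rw [show p = g.v (upair (o x) (o y)) from ext fun z => (hp z).trans (E_upair hx hy).symm]
    exact H x y h hx hy ha hb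
  · exact absurd rfl hne
  · rw [show p = g.v (upair (o y) (o x)) from
      ext fun z => ((hp z).trans or_comm).trans (E_upair hy hx).symm]
    exact H y x h hy hx hb ha

variable {L : Type} [LinearOrder L] [WellFoundedLT L] (D : P → T → L → Prop)

/-- The name of the function described by `D`. -/
noncomputable def fN : Name P :=
  relN (fun z : {z : P × T × L // D z.1 z.2.1 z.2.2} => o z.1.2.1) (fun z => o z.1.2.2)
    (fun z => z.1.1)

/-- The name of its range. -/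
noncomputable def rN : Name P :=
  Name.mk {z : P × T × L // D z.1 z.2.1 z.2.2} (fun z => o z.1.2.2) (fun z => z.1.1)

variable {D}

theorem app_fN (h : fN D ∈ g.N) {s t : g.M} : App g.E (g.v (fN D)) s t ↔
    ∃ r ∈ g.G, ∃ a x, D r a x ∧ o a ∈ g.N ∧ o x ∈ g.N ∧ s = g.v (o a) ∧ t = g.v (o x) := by
  unfold fN at h ⊢
  rw [app_relN h]
  exact ⟨fun ⟨z, h₁, h₂⟩ => ⟨_, h₁, _, _, z.2, h₂⟩,
    fun ⟨r, h₁, a, x, h₂, h₃⟩ => ⟨⟨(r, a, x), h₂⟩, h₁, h₃⟩⟩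

omit [LinearOrder T] [WellFoundedLT T] in
theorem E_rN (h : rN D ∈ g.N) {t : g.M} : g.E t (g.v (rN D)) ↔
    ∃ r ∈ g.G, ∃ a x, D r a x ∧ o x ∈ g.N ∧ g.v (o x) = t := by
  rw [E_v h]
  exact ⟨fun ⟨z, h₁, h₂⟩ => ⟨_, h₁, _, _, z.2, h₂⟩,
    fun ⟨r, h₁, a, x, h₂, h₃⟩ => ⟨⟨(r, a, x), h₂⟩, h₁, h₃⟩⟩

omit [LinearOrder T] [WellFoundedLT T] in
theorem rN_sub (h : rN D ∈ g.N) (hk : al L ∈ g.N) (t : g.M) (ht : g.E t (g.v (rN D))) :
    g.E t (g.v (al L)) := by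
  obtain ⟨r, -, a, x, -, h₁, rfl⟩ := (E_rN h).1 ht
  exact (E_al hk).2 ⟨x, h₁, rfl⟩

omit [LinearOrder T] [WellFoundedLT T] [LinearOrder L] [WellFoundedLT L] in
theorem FunName.both {b r r' : P} (hD : FunName D b) (hr : r ∈ g.G) (hr' : r' ∈ g.G)
    {a a' : T} {x x' : L} (h : D r a x) (h' : D r' a' x') : ∃ s ∈ g.G, D s a x ∧ D s a' x' := by
  obtain ⟨s, hs, h₁, h₂⟩ := g.dir hr hr'
  exact ⟨s, hs, hD.mono _ _ _ _ h₁ h, hD.mono _ _ _ _ h₂ h'⟩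

omit [LinearOrder T] [WellFoundedLT T] in
theorem FunName.two {b : P} (hD : FunName D b) (h : rN D ∈ g.N) {x y : L} (hx : o x ∈ g.N)
    (hy : o y ∈ g.N) (h₁ : g.E (g.v (o x)) (g.v (rN D))) (h₂ : g.E (g.v (o y)) (g.v (rN D))) :
    ∃ s ∈ g.G, ∃ a a', D s a x ∧ D s a' y := by
  obtain ⟨r, hr, a, x', h₃, h₄, e⟩ := (E_rN h).1 h₁
  obtain ⟨r', hr', a', y', h₅, h₆, e'⟩ := (E_rN h).1 h₂
  obtain rfl := o_inj h₄ hx e
  obtain rfl := o_inj h₆ hy e'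
  obtain ⟨s, hs, h₇⟩ := hD.both hr hr' h₃ h₅
  exact ⟨s, hs, a, a', h₇⟩

theorem isFun_fN {b : P} (hD : FunName D b) (hb : b ∈ g.G) (hf : fN D ∈ g.N) (hr : rN D ∈ g.N)
    (hT : al T ∈ g.N) : IsFun g.E (g.v (fN D)) (g.v (al T)) (g.v (rN D)) := by
  constructor
  · intro p hp
    obtain ⟨⟨⟨r, a, x⟩, h₀⟩, h₁, h₂, h₃, rfl⟩ := (E_relN hf).1 hp
    exact ⟨_, _, (E_al hT).2 ⟨a, h₂, rfl⟩, (E_rN hr).2 ⟨r, h₁, a, x, h₀, h₃, rfl⟩, isPair_pr _ _⟩
  · intro s hs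
    obtain ⟨a, ha, rfl⟩ := (E_al hT).1 hs
    have : ∃ t, App g.E (g.v (fN D)) (g.v (o a)) t := by
      refine dens (Ψ := fun _ E w => ∃ b, App E (w 0) (w 1) b)
        (UDef.ex (UDef.app _ _ _)) (l2 hf ha) fun p hp => ?_
      obtain ⟨p', -, h₁, h₂⟩ := g.dir hp hb
      obtain ⟨q, hq, x, hx⟩ := hD.tot p' h₂ a
      refine ⟨q, hq.trans h₁, {o x}, countable_singleton _, fun g' hq' hC hl =>
        ⟨g'.v (o x), ?_⟩⟩
      exact (app_fN (hl _ (by simp))).2 ⟨q, hq', a, x, hx, hl _ (by simp), hC rfl, rfl, rfl⟩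
    obtain ⟨t, ht⟩ := this
    refine ⟨t, ht, fun t' ht' => ?_⟩
    obtain ⟨r, h₁, a₁, x, h₂, h₃, -, e, rfl⟩ := (app_fN hf).1 ht
    obtain ⟨r', h₁', a₂, x', h₂', h₃', -, e', rfl⟩ := (app_fN hf).1 ht'
    obtain rfl := o_inj ha h₃ e
    obtain rfl := o_inj ha h₃' e'
    obtain ⟨s, -, h₄, h₅⟩ := hD.both h₁ h₁' h₂ h₂'
    rw [hD.func _ _ _ _ h₄ h₅]

/-- `r` forces that `c` takes the value `i` at the pair of `x` and `y`. -/
def EE (c i : Name P) (r : P) (x y : L) : Prop :=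
  ∀ g' : Gen P, r ∈ g'.G → c ∈ g'.N → upair (o x) (o y) ∈ g'.N → i ∈ g'.N →
    App g'.E (g'.v c) (g'.v (upair (o x) (o y))) (g'.v i)

theorem EE.mono (c i : Name P) (r r' : P) (x y : L) (h : r' ≤ r) (H : EE c i r x y) :
    EE c i r' x y := fun g' hr => H g' (g'.up hr h)

theorem caseA {D : P → L → L → Prop} {b : P} {c i : Name P} (hD : FunName D b)
    (h₁ : ∀ r t t' x, D r t x → D r t' x → t = t')
    (h₂ : ∀ r t t' x x', D r t x → D r t' x' → x < x' → ¬ EE c i r x x')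
    (hb : b ∈ g.G) (hf : fN D ∈ g.N) (hr : rN D ∈ g.N) (hk : al L ∈ g.N) (hc : c ∈ g.N)
    (hi : i ∈ g.N) {d z two : g.M}
    (hd : ∀ p, g.E p d ↔ ∃ a b, g.E a (g.v (al L)) ∧ g.E b (g.v (al L)) ∧ a ≠ b ∧
      IsUPair g.E p a b) (h2 : IsUPair g.E two z (g.v i)) (hfun : IsFun g.E (g.v c) d two) :
    ∃ A, (∀ x, g.E x A → g.E x (g.v (al L))) ∧ (∃ f, IsInj g.E f (g.v (al L)) A) ∧
      Homog g.E (g.v c) A z := by
  refine ⟨g.v (rN D), rN_sub hr hk, ⟨g.v (fN D), isFun_fN hD hb hf hr hk, ?_⟩,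
    homog_of hk (rN_sub hr hk) fun x y hxy hx hy m₁ m₂ => ?_⟩
  · intro s s' t ht ht'
    obtain ⟨r, k₁, a, x, k₂, -, k₃, rfl, rfl⟩ := (app_fN hf).1 ht
    obtain ⟨r', k₁', a', x', k₂', -, k₃', rfl, e⟩ := (app_fN hf).1 ht'
    obtain rfl := o_inj k₃ k₃' e
    obtain ⟨s, -, k₄, k₅⟩ := hD.both k₁ k₁' k₂ k₂'
    rw [h₁ _ _ _ _ k₄ k₅]
  · obtain ⟨s, hs, a, a', k₁, k₂⟩ := hD.two hr hx hy m₁ m₂
    obtain ⟨v, hv, happ⟩ := fun_ex hfun ((hd _).2 ⟨_, _, (E_al hk).2 ⟨x, hx, rfl⟩,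
      (E_al hk).2 ⟨y, hy, rfl⟩, fun e => hxy.ne (o_inj hx hy e), isUPair_upair hx hy⟩)
    rcases (h2 v).1 hv with rfl | rfl
    · exact happ
    · obtain ⟨r, k₃, k₄⟩ := transfer_app hc (upair_mem hx hy) hi happ
      obtain ⟨u, -, k₅, k₆⟩ := g.dir hs k₃
      exact absurd (EE.mono c i _ _ x y k₆ k₄)
        (h₂ u a a' x y (hD.mono _ _ _ _ k₅ k₁) (hD.mono _ _ _ _ k₅ k₂) hxy)

theorem caseB [Countable T] {b : P} {c i : Name P} (hD : FunName D b)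
    (h₁ : ∀ r m n x x', D r m x → D r n x' → m < n → x < x' ∧ EE c i r x x')
    (hb : b ∈ g.G) (hf : fN D ∈ g.N) (hr : rN D ∈ g.N) (hk : al L ∈ g.N) (hT : al T ∈ g.N)
    (hc : c ∈ g.N) (hi : i ∈ g.N) :
    ∃ B, (∀ x, g.E x B → g.E x (g.v (al L))) ∧ HasOtp g.E B (g.v (al T)) ∧
      Homog g.E (g.v c) B (g.v i) := by
  refine ⟨g.v (rN D), rN_sub hr hk, ⟨g.v (fN D), isFun_fN hD hb hf hr hT, ?_, ?_⟩,
    homog_of hk (rN_sub hr hk) fun x y hxy hx hy m₁ m₂ => ?_⟩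
  · intro t ht
    obtain ⟨r, k₁, a, x, k₂, k₃, rfl⟩ := (E_rN hr).1 ht
    exact ⟨_, (app_fN hf).2 ⟨r, k₁, a, x, k₂, o_mem hT a, k₃, rfl, rfl⟩⟩
  · intro s s' t t' ht ht' hs
    obtain ⟨r, k₁, a, x, k₂, k₃, k₄, rfl, rfl⟩ := (app_fN hf).1 ht
    obtain ⟨r', k₁', a', x', k₂', k₃', k₄', rfl, rfl⟩ := (app_fN hf).1 ht'
    obtain ⟨s, -, k₅, k₆⟩ := hD.both k₁ k₁' k₂ k₂'
    exact (o_lt k₄ k₄').2 (h₁ _ _ _ _ _ k₅ k₆ ((o_lt k₃ k₃').1 hs)).1
  · obtain ⟨s, hs, a, a', k₁, k₂⟩ := hD.two hr hx hy m₁ m₂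
    rcases lt_trichotomy a a' with h | rfl | h
    · exact (h₁ _ _ _ _ _ k₁ k₂ h).2 g hs hc (upair_mem hx hy) hi
    · exact absurd (hD.func _ _ _ _ k₁ k₂) hxy.ne
    · exact absurd (h₁ _ _ _ _ _ k₂ k₁ h).1 hxy.not_gt

end Names

theorem exists_emb : ∃ e : (Ordinal.omega0.{0} + 1).ToType → ℕ∞, StrictMono e := by
  refine ⟨fun t => toENat (Ordinal.typein (α := (Ordinal.omega0.{0} + 1).ToType) (· < ·) t).card,
    fun a b h => ?_⟩
  have h₁ := (Ordinal.typein_lt_typein (α := (Ordinal.omega0.{0} + 1).ToType) (· < ·)).2 h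
  have h₂ := Order.lt_add_one_iff.1 (Ordinal.typein_lt_self b)
  obtain ⟨n, hn⟩ := Ordinal.lt_omega0.1 (h₁.trans_le h₂)
  simp only
  rw [hn] at h₁ ⊢
  rcases h₂.lt_or_eq with h₂ | h₂
  · obtain ⟨m, hm⟩ := Ordinal.lt_omega0.1 h₂
    rw [hm] at h₁ ⊢
    simpa using h₁
  · rw [h₂]; simp

theorem udef_upair (i j k : ℕ) : UDef.{1} (fun _ E w => IsUPair E (w i) (w j) (w k)) := by
  unfold IsUPair
  repeat' first
    | exact UDef.mem _ _ | exact UDef.eq _ _ | apply UDef.or | apply UDef.iff | apply UDef.all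

theorem udef_homog (i j k : ℕ) : UDef.{1} (fun _ E w => Homog E (w i) (w j) (w k)) := by
  unfold Homog
  repeat' first
    | exact UDef.mem _ _ | exact UDef.app _ _ _ | exact UDef.ne _ _
    | exact udef_upair _ _ _ | apply UDef.imp | apply UDef.all

theorem udef_otp (i j : ℕ) : UDef.{1} (fun _ E w => HasOtp E (w i) (w j)) := by
  unfold HasOtp
  repeat' first
    | exact UDef.mem _ _ | exact UDef.app _ _ _ | exact UDef.isFun _ _ _
    | apply UDef.and | apply UDef.imp | apply UDef.all | apply UDef.ex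

theorem udef_arrow : UDef.{1} (fun _ E w => Arrow E (w 0) (w 1)) := by
  unfold Arrow
  repeat' first
    | exact UDef.mem _ _ | exact UDef.eq _ _ | exact UDef.ne _ _ | exact UDef.isFun _ _ _
    | exact UDef.isInj _ _ _ | exact udef_upair _ _ _ | exact udef_homog _ _ _
    | exact udef_otp _ _ | apply UDef.and | apply UDef.or | apply UDef.iff | apply UDef.not
    | apply UDef.imp | apply UDef.all | apply UDef.ex

theorem arrow_gen {l : Cardinal.{0}} (h₁ : ℵ₀ < l.ord.cof) (h₂ : 2 ^ l.ord.cof < l)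
    (cc : CC P l.ord.cof) (hk : chk P l.ord ∈ g.N) (ht : chk P (Ordinal.omega0 + 1) ∈ g.N) :
    Arrow g.E (g.v (chk P l.ord)) (g.v (chk P (Ordinal.omega0 + 1))) := by
  intro d z one two c hd _ _ h2 hc
  obtain ⟨dN, m₁, rfl⟩ := exists_v d
  obtain ⟨zN, m₂, rfl⟩ := exists_v z
  obtain ⟨iN, m₃, rfl⟩ := exists_v one
  obtain ⟨tN, m₄, rfl⟩ := exists_v two
  obtain ⟨cN, m₅, rfl⟩ := exists_v c
  have hU : UDef.{1} (fun _ E w =>
      (∀ p, E p (w 2) ↔ ∃ a b, E a (w 0) ∧ E b (w 0) ∧ a ≠ b ∧ IsUPair E p a b) →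
      IsUPair E (w 5) (w 3) (w 4) → IsFun E (w 6) (w 2) (w 5) →
      (∃ A, (∀ x, E x A → E x (w 0)) ∧ (∃ f, IsInj E f (w 0) A) ∧ Homog E (w 6) A (w 3)) ∨
      (∃ B, (∀ x, E x B → E x (w 0)) ∧ HasOtp E B (w 1) ∧ Homog E (w 6) B (w 4))) := by
    repeat' first
      | exact UDef.mem _ _ | exact UDef.eq _ _ | exact UDef.ne _ _ | exact UDef.isFun _ _ _
      | exact UDef.isInj _ _ _ | exact udef_upair _ _ _ | exact udef_homog _ _ _
      | exact udef_otp _ _ | apply UDef.and | apply UDef.or | apply UDef.iff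
      | apply UDef.imp | apply UDef.all | apply UDef.ex
  refine dens hU (l := [chk P l.ord, chk P (Ordinal.omega0 + 1), dN, zN, iN, tN, cN])
    (lcons hk (lcons ht (lcons m₁ (l4 m₂ m₃ m₄ m₅)))) (fun p _ => ?_) hd h2 hc
  rcases dichotomy h₁ cc h₂ (EE.mono cN iN) p with hA | hB
  · obtain ⟨b, hb, D, k₁, k₂, k₃⟩ := convA h₁ ((cantor _).trans h₂) (mk_ord_toType l).le cc hA
    refine ⟨b, hb, {fN D, rN D}, (Set.toFinite _).countable, fun g' hb' hC hl a₁ a₂ a₃ => ?_⟩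
    exact Or.inl (caseA k₁ k₂ k₃ hb' (hC (by simp)) (hC (by simp)) (hl _ (by simp [al, chk]))
      (hl _ (by simp)) (hl _ (by simp)) a₁ a₂ a₃)
  · obtain ⟨b, hb, D, k₁, k₂⟩ := convB (EE.mono cN iN) hB
    obtain ⟨e, he⟩ := exists_emb
    have := he.injective.countable
    refine ⟨b, hb, {fN fun r t x => D r (e t) x, rN fun r t x => D r (e t) x},
      (Set.toFinite _).countable, fun g' hb' hC hl _ _ _ => ?_⟩
    exact Or.inr (caseB (D := fun r t x => D r (e t) x) (c := cN) (i := iN)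
      ⟨fun _ _ _ _ => k₁.mono _ _ _ _, fun _ _ => k₁.func _ _, fun r hr _ => k₁.tot r hr _⟩
      (fun r m n x x' a₁ a₂ h => k₂ r _ _ x x' a₁ a₂ (he h)) hb' (hC (by simp)) (hC (by simp))
      (hl _ (by simp [al, chk])) (hl _ (by simp [al, chk])) (hl _ (by simp)) (hl _ (by simp)))

omit [OrderTop P] in
theorem forces_rename : ∀ (φ : Fml) (f : ℕ → ℕ) (w : ℕ → Name P) (p : P),
    Forces (φ.rename f) w p ↔ Forces φ (fun k => w (f k)) p := by
  intro φ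
  induction φ with
  | mem i j => intro f w p; rfl
  | eq i j => intro f w p; rfl
  | bot => intro f w p; rfl
  | imp φ ψ ih₁ ih₂ => intro f w p; simp only [Fml.rename, Forces, ih₁, ih₂]
  | all φ ih =>
    intro f w p
    simp only [Fml.rename, Forces, ih]
    refine forall_congr' fun x => ?_
    have : (fun k => cons x w (liftIdx f k)) = cons x (fun k => w (f k)) := by
      funext k; cases k <;> rfl
    rw [this]

theorem main {l : Cardinal.{0}} (h₁ : ℵ₀ < l.ord.cof) (h₂ : 2 ^ l.ord.cof < l)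
    (cc : CC P l.ord.cof) : ∃ φ : Fml,
    (∀ (M : Type 1) (E : M → M → Prop) (w : ℕ → M), Sat E φ w ↔ Arrow E (w 0) (w 1)) ∧
    ∀ w : ℕ → Name P, w 0 = chk P l.ord → w 1 = chk P (Ordinal.omega0 + 1) →
      ∀ p : P, Forces φ w p := by
  obtain ⟨φ, hφ⟩ := udef_arrow
  have hS : ∀ (M : Type 1) (E : M → M → Prop) (w : ℕ → M),
      Sat E (φ.rename fun k => min k 1) w ↔ Arrow E (w 0) (w 1) := fun M E w => by
    rw [sat_rename, hφ]; rfl
  refine ⟨φ.rename fun k => min k 1, hS, fun w h0 h1 p => ?_⟩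
  have e : (fun k => w (min k 1)) =
      fun k => env emp [chk P l.ord, chk P (Ordinal.omega0 + 1)] (min k 1) := by
    funext k
    rcases k with _ | k
    · exact h0
    · rw [min_eq_right (Nat.le_add_left 1 k)]; exact h1
  rw [forces_rename, e, ← forces_rename]
  refine Forces.reg fun q _ => ?_
  obtain ⟨g, hq, hC⟩ := exists_gen q {chk P l.ord, chk P (Ordinal.omega0 + 1)}
    (Set.toFinite _).countable
  have hk : chk P l.ord ∈ g.N := hC (by simp)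
  have ht : chk P (Ordinal.omega0 + 1) ∈ g.N := hC (by simp)
  obtain ⟨r, hr, f⟩ := (truth _ (l2 hk ht)).1 ((hS _ _ _).2 (arrow_gen h₁ h₂ cc hk ht))
  obtain ⟨s, -, k₁, k₂⟩ := g.dir hr hq
  exact ⟨s, k₂, f.mono k₁⟩

end Pool.Agent.MP_e34318_lc.Cc
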