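import Mathlib

namespace Pool.Agent.MP_e34318_lc

/-- `F` is a normal filter: proper, contains all final segments, closed under diagonal
intersections. -/
def IsNormal {K : Type} [LinearOrder K] (F : Filter K) : Prop :=
  F.NeBot ∧ (∀ i, Set.Ioi i ∈ F) ∧
    ∀ X : K → Set K, (∀ i, X i ∈ F) → {j | ∀ i < j, j ∈ X i} ∈ F

end Pool.Agent.MP_e34318_lc
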